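import Mathlib

set_option autoImplicit false

/-! Helper file (helper338): the polynomial ring in the variables `x_i = X (i, false)`,
`y_i = X (i, true)`, its primes `n_i = (x_i, y_i)`, and infinite prime avoidance. -/

namespace Pool.Agent.H338R3

open MvPolynomial

/-- the polynomial ring -/
abbrev PolyA (k : Type) [Field k] := MvPolynomial (ℕ × Bool) k

section

variable {k : Type} [Field k]

/-- set the two variables with index `i` equal to `0` -/
noncomputable def ep (i : ℕ) : PolyA k →ₐ[k] PolyA k :=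
  aeval (fun s : ℕ × Bool => if s.1 = i then 0 else X s)

lemma ep_X_self (i : ℕ) (b : Bool) : ep i (X (i, b) : PolyA k) = 0 := by
  simp [ep]

lemma ep_X_of_ne {i j : ℕ} (h : j ≠ i) (b : Bool) : ep i (X (j, b) : PolyA k) = X (j, b) := by
  simp [ep, h]

/-- the prime ideal `(x_i, y_i)` -/
noncomputable def nA (i : ℕ) : Ideal (PolyA k) := RingHom.ker (ep i : PolyA k →ₐ[k] PolyA k)

instance (i : ℕ) : (nA i : Ideal (PolyA k)).IsPrime := RingHom.ker_isPrime _

lemma mem_nA {i : ℕ} {f : PolyA k} : f ∈ nA i ↔ ep i f = 0 := RingHom.mem_ker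

lemma X_mem_nA (i : ℕ) (b : Bool) : (X (i, b) : PolyA k) ∈ nA i := by
  rw [mem_nA, ep_X_self]

lemma X_notMem_nA {i j : ℕ} (h : j ≠ i) (b : Bool) : (X (j, b) : PolyA k) ∉ nA i := by
  rw [mem_nA, ep_X_of_ne h]
  exact X_ne_zero _

lemma ep_eq_self {i : ℕ} {f : PolyA k} (h : ∀ s ∈ f.vars, s.1 ≠ i) : ep i f = f := by
  have : (ep i : PolyA k →ₐ[k] PolyA k).toRingHom f = (RingHom.id _) f := by
    apply MvPolynomial.hom_congr_vars
    · ext r
      simp
    · intro s hs _
      have := h s hs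
      obtain ⟨j, b⟩ := s
      exact ep_X_of_ne this b
    · rfl
  exact this

lemma exists_bound_ep (f : PolyA k) : ∃ N : ℕ, ∀ i, N ≤ i → ep i f = f := by
  refine ⟨f.vars.sup (fun s => s.1) + 1, fun i hi => ep_eq_self fun s hs h => ?_⟩
  have := Finset.le_sup (f := fun s : ℕ × Bool => s.1) hs
  omega

/-- Infinite prime avoidance. -/
lemma avoid (I : Ideal (PolyA k)) (h : ∀ i, ∃ x ∈ I, x ∉ nA i) : ∃ w ∈ I, ∀ i, w ∉ nA i := by
  classical
  obtain ⟨a, ha, ha0⟩ := h 0
  have hane : a ≠ 0 := by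
    rintro rfl
    exact ha0 (Ideal.zero_mem _)
  obtain ⟨N', hN'⟩ := exists_bound_ep a
  obtain ⟨N, hN, hN1⟩ : ∃ N, (∀ i, N ≤ i → ep i a = a) ∧ 1 ≤ N :=
    ⟨N' + 1, fun i hi => hN' i (by omega), by omega⟩
  -- finite prime avoidance
  obtain ⟨b, hb, hbn⟩ : ∃ b ∈ I, ∀ i < N, b ∉ nA i := by
    by_contra hcon
    push Not at hcon
    have : (I : Set (PolyA k)) ⊆ ⋃ i ∈ (↑(Finset.range N) : Set ℕ), (nA i : Ideal (PolyA k)) := by
      intro x hx
      obtain ⟨i, hi, hxi⟩ := hcon x hx
      simp only [Finset.coe_range, Set.mem_Iio, Set.mem_iUnion]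
      exact ⟨i, hi, hxi⟩
    rw [Ideal.subset_union_prime 0 0 (fun i _ _ _ => inferInstance)] at this
    obtain ⟨i, -, hi⟩ := this
    obtain ⟨x, hx, hxi⟩ := h i
    exact hxi (hi hx)
  obtain ⟨M', hM'⟩ := exists_bound_ep b
  obtain ⟨M, hM, hNM⟩ : ∃ M, (∀ i, M ≤ i → ep i b = b) ∧ N ≤ M :=
    ⟨M' + N, fun i hi => hM' i (by omega), by omega⟩
  set S : Finset ℕ := (Finset.range M).filter (fun i => ¬ (N ≤ i ∧ b ∈ nA i)) with hS
  set z : PolyA k := ∏ i ∈ S, X (i, false) with hz
  have hzmem : ∀ i, i ∈ S → z ∈ nA i := by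
    intro i hi
    rw [hz]
    exact Ideal.mem_of_dvd _ (Finset.dvd_prod_of_mem _ hi) (X_mem_nA i false)
  have hznot : ∀ i, i ∉ S → z ∉ nA i := by
    intro i hi hzi
    rw [hz, Ideal.IsPrime.prod_mem_iff] at hzi
    obtain ⟨j, hj, hji⟩ := hzi
    exact X_notMem_nA (fun h => hi (by rw [← h]; exact hj)) false hji
  have hc : b + a * z ∉ nA 0 := by
    intro hcon
    have h0 : (0:ℕ) ∈ S := by
      rw [hS, Finset.mem_filter, Finset.mem_range]
      exact ⟨by omega, by omega⟩
    exact hbn 0 (by omega) ((Ideal.add_mem_iff_left _ (Ideal.mul_mem_left _ a (hzmem 0 h0))).1 hcon)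
  refine ⟨b + a * z, I.add_mem hb (I.mul_mem_right _ ha), fun i => ?_⟩
  by_cases hiM : i < M
  · by_cases hiS : i ∈ S
    · intro hcon
      have hbi : b ∈ nA i :=
        (Ideal.add_mem_iff_left _ (Ideal.mul_mem_left _ a (hzmem i hiS))).1 hcon
      rw [hS, Finset.mem_filter] at hiS
      by_cases hiN : N ≤ i
      · exact hiS.2 ⟨hiN, hbi⟩
      · exact hbn i (by omega) hbi
    · have hiS' : N ≤ i ∧ b ∈ nA i := by
        by_contra hcon
        exact hiS (by rw [hS, Finset.mem_filter, Finset.mem_range]; exact ⟨hiM, hcon⟩)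
      intro hcon
      have haz : a * z ∈ nA i := (Ideal.add_mem_iff_right _ hiS'.2).1 hcon
      rcases (inferInstance : (nA i : Ideal (PolyA k)).IsPrime).mem_or_mem haz with h1 | h1
      · rw [mem_nA, hN i hiS'.1] at h1
        exact hane h1
      · exact hznot i hiS h1
  · have e1 : ep i (b + a * z) = b + a * z := by
      rw [map_add, map_mul, hM i (by omega), hN i (by omega), hz, map_prod]
      congr 2
      refine Finset.prod_congr rfl fun j hj => ?_
      rw [hS, Finset.mem_filter, Finset.mem_range] at hj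
      exact ep_X_of_ne (by omega) false
    rw [mem_nA, e1]
    intro hcon
    rw [hcon] at hc
    exact hc (Ideal.zero_mem _)

lemma sub_ep_mem (i : ℕ) (f : PolyA k) :
    f - ep i f ∈ Ideal.span {(X (i, false) : PolyA k), X (i, true)} := by
  induction f using MvPolynomial.induction_on with
  | C r => simp [ep]
  | add p q hp hq =>
    have : p + q - ep i (p + q) = (p - ep i p) + (q - ep i q) := by rw [map_add]; ring
    rw [this]
    exact Ideal.add_mem _ hp hq
  | mul_X p s hp =>
    have : p * X s - ep i (p * X s) = (p - ep i p) * X s + ep i p * (X s - ep i (X s)) := by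
      rw [map_mul]; ring
    rw [this]
    refine Ideal.add_mem _ (Ideal.mul_mem_right _ _ hp) (Ideal.mul_mem_left _ _ ?_)
    obtain ⟨j, b⟩ := s
    by_cases h : j = i
    · subst h
      rw [ep_X_self, sub_zero]
      apply Ideal.subset_span
      cases b <;> simp
    · rw [ep_X_of_ne h, sub_self]
      exact Ideal.zero_mem _

lemma nA_le_span (i : ℕ) {f : PolyA k} (hf : f ∈ nA i) :
    ∃ a b, f = a * X (i, false) + b * X (i, true) := by
  have := sub_ep_mem i f
  rw [mem_nA.1 hf, sub_zero, Ideal.mem_span_pair] at this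
  obtain ⟨a, b, h⟩ := this
  exact ⟨a, b, h.symm⟩

end

end Pool.Agent.H338R3
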