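import Pool.Agent.H338R3.HochA

set_option autoImplicit false

/-! Helper file (helper338): ideals of `A = k[x_i, y_i : i]` are finitely generated up to
multiplication by elements outside all the primes `n_i`. -/

namespace Pool.Agent.H338R3

open MvPolynomial

section

/-- Ideals are finitely generated up to `M` if the localization at `M` is noetherian. -/
lemma loc_fg {R S : Type} [CommRing R] [CommRing S] [Algebra R S] (M : Submonoid R)
    [IsLocalization M S] [IsNoetherianRing S] (I : Ideal R) :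
    ∃ J : Ideal R, J ≤ I ∧ J.FG ∧ ∀ b ∈ I, ∃ m ∈ M, m * b ∈ J := by
  classical
  have h1 : (Submodule.span S (⇑(algebraMap R S) '' (I : Set R))).FG := IsNoetherian.noetherian _
  rw [Submodule.fg_span_iff_fg_span_finset_subset] at h1
  obtain ⟨s', hs', hs⟩ := h1
  rw [Finset.subset_set_image_iff] at hs'
  obtain ⟨t, ht, rfl⟩ := hs'
  refine ⟨Ideal.span t, Ideal.span_le.2 ht, ⟨t, rfl⟩, fun b hb => ?_⟩
  have h2 : algebraMap R S b ∈ (Ideal.span (t : Set R)).map (algebraMap R S) := by
    rw [Ideal.map_span]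
    rw [Finset.coe_image] at hs
    rw [Ideal.span, ← hs]
    exact Submodule.subset_span ⟨b, hb, rfl⟩
  rw [IsLocalization.mem_map_algebraMap_iff M S] at h2
  obtain ⟨⟨j, m⟩, h3⟩ := h2
  rw [← map_mul, IsLocalization.eq_iff_exists M S] at h3
  obtain ⟨c, hc⟩ := h3
  refine ⟨c * m, M.mul_mem c.2 m.2, ?_⟩
  have : (c : R) * m * b = c * j := by
    rw [← hc]
    ring
  rw [this]
  exact Ideal.mul_mem_left _ _ j.2

variable {k : Type} [Field k]

/-- split off the two variables with index `i` -/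
noncomputable def splitOff (i : ℕ) : PolyA k ≃ₐ[k]
    MvPolynomial {s : ℕ × Bool // s.1 = i} (MvPolynomial {s : ℕ × Bool // ¬ s.1 = i} k) :=
  (renameEquiv k (Equiv.sumCompl (fun s : ℕ × Bool => s.1 = i)).symm).trans (sumAlgEquiv k _ _)

lemma splitOff_rename (i : ℕ) (t : MvPolynomial {s : ℕ × Bool // ¬ s.1 = i} k) :
    splitOff i (rename Subtype.val t) = C t := by
  have : ((splitOff i : PolyA k ≃ₐ[k] _).toAlgHom.comp (rename Subtype.val)) =
      IsScalarTower.toAlgHom k (MvPolynomial {s : ℕ × Bool // ¬ s.1 = i} k)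
        (MvPolynomial {s : ℕ × Bool // s.1 = i} (MvPolynomial {s : ℕ × Bool // ¬ s.1 = i} k)) := by
    apply MvPolynomial.algHom_ext
    rintro ⟨s, hs⟩
    simp only [splitOff, AlgHom.comp_apply, rename_X]
    simp [Equiv.sumCompl_symm_apply_of_neg, hs]
  exact DFunLike.congr_fun this t

lemma ep_rename (i : ℕ) (t : MvPolynomial {s : ℕ × Bool // ¬ s.1 = i} k) :
    ep i (rename Subtype.val t) = rename Subtype.val t := by
  have : ((ep i : PolyA k →ₐ[k] PolyA k).comp (rename Subtype.val)) =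
      (rename Subtype.val : MvPolynomial {s : ℕ × Bool // ¬ s.1 = i} k →ₐ[k] PolyA k) := by
    apply MvPolynomial.algHom_ext
    rintro ⟨⟨j, b⟩, hs⟩
    simp only [AlgHom.comp_apply, rename_X]
    exact ep_X_of_ne hs b
  exact DFunLike.congr_fun this t

instance (i : ℕ) : Finite {s : ℕ × Bool // s.1 = i} :=
  Finite.of_injective (fun s => s.1.2) (by
    rintro ⟨⟨j, b⟩, h⟩ ⟨⟨j', b'⟩, h'⟩ hb
    simp only at h h' hb
    subst h h' hb
    rfl)

/-- Transfer along a ring isomorphism. -/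
lemma equiv_fg {A B : Type} [CommRing A] [CommRing B] (e : A ≃+* B) (T : Set B)
    (h : ∀ I : Ideal B, ∃ J : Ideal B, J ≤ I ∧ J.FG ∧ ∀ b ∈ I, ∃ m ∈ T, m * b ∈ J) (I : Ideal A) :
    ∃ J : Ideal A, J ≤ I ∧ J.FG ∧ ∀ b ∈ I, ∃ t, e t ∈ T ∧ t * b ∈ J := by
  have hmem : ∀ (J : Ideal B) (x : A), x ∈ J.map (e.symm : B →+* A) ↔ e x ∈ J := by
    intro J x
    constructor
    · intro hx
      have h1 : J.map (e.symm : B →+* A) ≤ J.comap (e : A →+* B) := by
        rw [Ideal.map_le_iff_le_comap]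
        intro y hy
        rw [Ideal.mem_comap, Ideal.mem_comap]
        simpa using hy
      exact h1 hx
    · intro hx
      have := Ideal.mem_map_of_mem (e.symm : B →+* A) hx
      simpa using this
  obtain ⟨J, hJI, hJ, h⟩ := h (I.comap (e.symm : B →+* A))
  refine ⟨J.map (e.symm : B →+* A), ?_, Ideal.FG.map hJ _, fun b hb => ?_⟩
  · intro x hx
    rw [hmem] at hx
    have h1 := hJI hx
    rw [Ideal.mem_comap] at h1
    simpa using h1
  · obtain ⟨m, ht, hm⟩ := h (e b) (by rw [Ideal.mem_comap]; simpa using hb)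
    refine ⟨e.symm m, by simpa using ht, ?_⟩
    rw [hmem, map_mul]
    simpa using hm

section
attribute [local instance] MvPolynomial.algebraMvPolynomial

/-- ideals in a polynomial ring in finitely many variables over a domain are finitely generated
up to constants -/
lemma mv_fg (σ' E : Type) [Finite σ'] [CommRing E] [IsDomain E] (I : Ideal (MvPolynomial σ' E)) :
    ∃ J : Ideal (MvPolynomial σ' E), J ≤ I ∧ J.FG ∧ ∀ b ∈ I,
      ∃ m ∈ {m : MvPolynomial σ' E | ∃ t : E, t ≠ 0 ∧ C t = m}, m * b ∈ J := by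
  obtain ⟨J, hJI, hJ, h⟩ := loc_fg (S := MvPolynomial σ' (FractionRing E))
    ((nonZeroDivisors E).map (C (σ := σ'))) I
  refine ⟨J, hJI, hJ, fun b hb => ?_⟩
  obtain ⟨m, ⟨t, ht, rfl⟩, hm⟩ := h b hb
  exact ⟨C t, ⟨t, nonZeroDivisors.ne_zero ht, rfl⟩, hm⟩

end

/-- Finite generation up to elements outside `n_i`. -/
lemma local_fg (i : ℕ) (I : Ideal (PolyA k)) :
    ∃ J : Ideal (PolyA k), J ≤ I ∧ J.FG ∧ ∀ b ∈ I, ∃ t, t ∉ nA i ∧ t * b ∈ J := by
  obtain ⟨J, hJI, hJ, h⟩ := equiv_fg (splitOff i : PolyA k ≃ₐ[k] _).toRingEquiv _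
    (mv_fg {s : ℕ × Bool // s.1 = i} (MvPolynomial {s : ℕ × Bool // ¬ s.1 = i} k)) I
  refine ⟨J, hJI, hJ, fun b hb => ?_⟩
  obtain ⟨m, ⟨t, ht, htm⟩, hm⟩ := h b hb
  refine ⟨m, ?_, hm⟩
  have h1 : m = rename Subtype.val t := by
    apply (splitOff i : PolyA k ≃ₐ[k] _).injective
    rw [splitOff_rename, htm]
    rfl
  rw [mem_nA, h1, ep_rename]
  intro h0
  apply ht
  apply MvPolynomial.rename_injective _ Subtype.val_injective
  rw [h0, map_zero]

/-- Every ideal of `A` is finitely generated up to elements outside all the `n_i`. -/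
lemma global_fg (I : Ideal (PolyA k)) :
    ∃ J : Ideal (PolyA k), J ≤ I ∧ J.FG ∧ ∀ b ∈ I, ∃ w, (∀ i, w ∉ nA i) ∧ w * b ∈ J := by
  classical
  by_cases hI : I = ⊥
  · refine ⟨⊥, by rw [hI], Submodule.fg_bot, fun b hb => ⟨1, fun i h => ?_, ?_⟩⟩
    · exact (inferInstance : (nA i : Ideal (PolyA k)).IsPrime).ne_top
        ((Ideal.eq_top_iff_one _).2 h)
    · rw [one_mul, ← hI]
      exact hb
  · obtain ⟨a, ha, hane⟩ := Submodule.exists_mem_ne_zero_of_ne_bot hI
    obtain ⟨N, hN⟩ := exists_bound_ep a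
    choose J hJI hJ h using fun i => local_fg (k := k) i I
    refine ⟨Ideal.span {a} ⊔ ⨆ i ∈ Finset.range N, J i, ?_, ?_, fun b hb => ?_⟩
    · refine sup_le ?_ (iSup₂_le fun i _ => hJI i)
      rw [Ideal.span_le, Set.singleton_subset_iff]
      exact ha
    · refine Submodule.FG.sup ⟨{a}, by simp⟩ ?_
      exact Submodule.fg_biSup _ _ fun i _ => hJ i
    · set J' := Ideal.span {a} ⊔ ⨆ i ∈ Finset.range N, J i with hJ'
      obtain ⟨w, hw, hwn⟩ := avoid ((Submodule.colon J' ({b} : Set (PolyA k)))) (fun i => by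
        by_cases hi : i < N
        · obtain ⟨t, ht, htb⟩ := h i b hb
          refine ⟨t, ?_, ht⟩
          rw [Submodule.mem_colon_singleton]
          have h1 : J i ≤ J' := le_sup_of_le_right
            (le_iSup₂_of_le i (Finset.mem_range.2 hi) le_rfl)
          exact h1 htb
        · refine ⟨a, ?_, ?_⟩
          · rw [Submodule.mem_colon_singleton]
            have h1 : a ∈ J' := by
              apply Submodule.mem_sup_left
              exact Ideal.mem_span_singleton_self a
            exact Ideal.mul_mem_right _ _ h1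
          · rw [mem_nA, hN i (by omega)]
            exact hane)
      refine ⟨w, hwn, ?_⟩
      rw [Submodule.mem_colon_singleton] at hw
      exact hw

end

end Pool.Agent.H338R3
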