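import Pool.Agent.H338R3.HochB

set_option autoImplicit false

/-! Helper file (helper338): the subring `D` of `A = k[x_i, y_i : i]` of the polynomials which, for
every `i`, only involve monomials whose degree in `x_i, y_i` is divisible by `p`, and its
localization `R = W⁻¹ D` at the elements outside all the primes `n_i`, which is noetherian. -/

namespace Pool.Agent.H338R3

open MvPolynomial

section

variable {k : Type} [Field k]

/-- the exponents which occur in `D` -/
def good (p : ℕ) (m : (ℕ × Bool) →₀ ℕ) : Prop := ∀ i : ℕ, p ∣ m (i, false) + m (i, true)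

lemma good_zero (p : ℕ) : good p 0 := fun i => by simp

lemma good_add {p : ℕ} {a b : (ℕ × Bool) →₀ ℕ} (ha : good p a) (hb : good p b) :
    good p (a + b) := fun i => by
  have := Nat.dvd_add (ha i) (hb i)
  simp only [Finsupp.add_apply]
  convert this using 1
  ring

lemma good_right {p : ℕ} {a b : (ℕ × Bool) →₀ ℕ} (ha : good p a) (hab : good p (a + b)) :
    good p b := fun i => by
  have h1 := hab i
  have h2 : (a + b) (i, false) + (a + b) (i, true)
      = (a (i, false) + a (i, true)) + (b (i, false) + b (i, true)) := by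
    simp only [Finsupp.add_apply]
    ring
  rw [h2] at h1
  exact (Nat.dvd_add_right (ha i)).1 h1

lemma good_single (p : ℕ) (s : ℕ × Bool) : good p (Finsupp.single s p) := fun i => by
  classical
  obtain ⟨j, b⟩ := s
  by_cases h : j = i
  · subst h
    cases b <;> simp
  · simp [h]

/-- the subring `D` -/
noncomputable def DD (p : ℕ) (k : Type) [Field k] : Subalgebra k (PolyA k) where
  carrier := {f | ∀ m ∈ f.support, good p m}
  mul_mem' := fun {f g} hf hg m hm => by
    classical
    have := MvPolynomial.support_mul f g hm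
    rw [Finset.mem_add] at this
    obtain ⟨a, ha, b, hb, rfl⟩ := this
    exact good_add (hf a ha) (hg b hb)
  add_mem' := fun {f g} hf hg m hm => by
    classical
    rcases Finset.mem_union.1 (MvPolynomial.support_add hm) with h | h
    · exact hf m h
    · exact hg m h
  algebraMap_mem' := fun c m hm => by
    have := MvPolynomial.support_monomial_subset (s := (0 : (ℕ × Bool) →₀ ℕ)) (a := c) hm
    rw [Finset.mem_singleton] at this
    rw [this]
    exact good_zero p

lemma mem_DD {p : ℕ} {f : PolyA k} : f ∈ DD p k ↔ ∀ m ∈ f.support, good p m := Iff.rfl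

lemma monomial_mem_DD {p : ℕ} {m : (ℕ × Bool) →₀ ℕ} (hm : good p m) (c : k) :
    (monomial m c : PolyA k) ∈ DD p k := by
  rw [mem_DD]
  intro a ha
  have := MvPolynomial.support_monomial_subset ha
  rw [Finset.mem_singleton] at this
  rw [this]
  exact hm

lemma X_pow_mem_DD (p : ℕ) (s : ℕ × Bool) : (X s : PolyA k) ^ p ∈ DD p k := by
  rw [X_pow_eq_monomial]
  exact monomial_mem_DD (good_single p s) 1

lemma pow_mem_DD (p : ℕ) [hp : Fact p.Prime] [CharP k p] (f : PolyA k) : f ^ p ∈ DD p k := by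
  have : ExpChar (PolyA k) p := ExpChar.prime hp.1
  induction f using MvPolynomial.induction_on with
  | C r =>
    rw [← C_pow]
    exact (DD p k).algebraMap_mem _
  | add f g hf hg =>
    rw [add_pow_expChar]
    exact Subalgebra.add_mem _ hf hg
  | mul_X f s hf =>
    rw [mul_pow]
    exact Subalgebra.mul_mem _ hf (X_pow_mem_DD p s)

open Classical in
/-- the projection `A → D` -/
noncomputable def prj (p : ℕ) (f : PolyA k) : PolyA k :=
  ∑ m ∈ f.support.filter (good p), monomial m (f.coeff m)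

open Classical in
lemma coeff_prj (p : ℕ) (f : PolyA k) (m : (ℕ × Bool) →₀ ℕ) :
    (prj p f).coeff m = if good p m then f.coeff m else 0 := by
  simp only [prj, coeff_sum, coeff_monomial, Finset.sum_ite_eq', Finset.mem_filter,
    MvPolynomial.mem_support_iff]
  by_cases h1 : good p m
  · by_cases h2 : f.coeff m = 0
    · simp [h1, h2]
    · simp [h1, h2]
  · simp [h1]

lemma prj_mem (p : ℕ) (f : PolyA k) : prj p f ∈ DD p k := by
  classical
  rw [mem_DD]
  intro m hm
  rw [MvPolynomial.mem_support_iff, coeff_prj] at hm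
  by_contra h
  rw [if_neg h] at hm
  exact hm rfl

lemma prj_add (p : ℕ) (f g : PolyA k) : prj p (f + g) = prj p f + prj p g := by
  classical
  ext m
  rw [coeff_add, coeff_prj, coeff_prj, coeff_prj, coeff_add]
  split_ifs <;> simp

lemma prj_mul (p : ℕ) {d : PolyA k} (hd : d ∈ DD p k) (f : PolyA k) :
    prj p (d * f) = d * prj p f := by
  classical
  ext m
  rw [coeff_prj, coeff_mul, coeff_mul]
  split_ifs with h
  · refine Finset.sum_congr rfl fun x hx => ?_
    rw [coeff_prj]
    split_ifs with h2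
    · rfl
    · by_cases h3 : d.coeff x.1 = 0
      · rw [h3, zero_mul, zero_mul]
      · exfalso
        apply h2
        refine good_right (hd x.1 (MvPolynomial.mem_support_iff.2 h3)) ?_
        rw [Finset.HasAntidiagonal.mem_antidiagonal.1 hx]
        exact h
  · symm
    refine Finset.sum_eq_zero fun x hx => ?_
    rw [coeff_prj]
    split_ifs with h2
    · by_cases h3 : d.coeff x.1 = 0
      · rw [h3, zero_mul]
      · exfalso
        apply h
        rw [← Finset.HasAntidiagonal.mem_antidiagonal.1 hx]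
        exact good_add (hd x.1 (MvPolynomial.mem_support_iff.2 h3)) h2
    · rw [mul_zero]

lemma prj_of_mem (p : ℕ) {d : PolyA k} (hd : d ∈ DD p k) : prj p d = d := by
  classical
  ext m
  rw [coeff_prj]
  split_ifs with h
  · rfl
  · symm
    by_contra h3
    exact h (hd m (MvPolynomial.mem_support_iff.2 h3))

/-- the projection `A → D`, with values in `D` -/
noncomputable def prD (p : ℕ) : PolyA k →+ DD p k where
  toFun f := ⟨prj p f, prj_mem p f⟩
  map_zero' := by
    apply Subtype.ext
    exact prj_of_mem p (Subalgebra.zero_mem _)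
  map_add' f g := by
    apply Subtype.ext
    exact prj_add p f g

lemma prD_mul (p : ℕ) (d : DD p k) (f : PolyA k) :
    prD p (algebraMap (DD p k) (PolyA k) d * f) = d * prD p f := by
  apply Subtype.ext
  exact prj_mul p d.2 f

lemma prD_of (p : ℕ) (d : DD p k) : prD p (algebraMap (DD p k) (PolyA k) d) = d := by
  apply Subtype.ext
  exact prj_of_mem p d.2

lemma prD_mem (p : ℕ) (J : Ideal (DD p k)) {x : PolyA k}
    (hx : x ∈ J.map (algebraMap (DD p k) (PolyA k))) : prD p x ∈ J := by
  rw [Ideal.map] at hx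
  have key : ∀ a : PolyA k, prD p (a * x) ∈ J := by
    refine Submodule.span_induction (p := fun x _ => ∀ a : PolyA k, prD p (a * x) ∈ J) ?_ ?_ ?_ ?_ hx
    · rintro x ⟨d, hd, rfl⟩ a
      rw [mul_comm, prD_mul]
      exact J.mul_mem_right _ hd
    · intro a
      rw [mul_zero, map_zero]
      exact J.zero_mem
    · intro x y _ _ hx hy a
      rw [mul_add, map_add]
      exact J.add_mem (hx a) (hy a)
    · intro c x _ hx a
      rw [smul_eq_mul, ← mul_assoc]
      exact hx _
  simpa using key 1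

lemma exists_fg_of_mem_map (p : ℕ) (I : Ideal (DD p k)) {x : PolyA k}
    (hx : x ∈ I.map (algebraMap (DD p k) (PolyA k))) :
    ∃ J : Ideal (DD p k), J ≤ I ∧ J.FG ∧ x ∈ J.map (algebraMap (DD p k) (PolyA k)) := by
  rw [Ideal.map] at hx
  refine Submodule.span_induction (p := fun x _ => ∃ J : Ideal (DD p k), J ≤ I ∧ J.FG ∧
    x ∈ J.map (algebraMap (DD p k) (PolyA k))) ?_ ?_ ?_ ?_ hx
  · rintro x ⟨d, hd, rfl⟩
    refine ⟨Ideal.span {d}, ?_, ⟨{d}, by simp⟩, ?_⟩
    · rw [Ideal.span_le, Set.singleton_subset_iff]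
      exact hd
    · exact Ideal.mem_map_of_mem _ (Ideal.mem_span_singleton_self d)
  · exact ⟨⊥, bot_le, Submodule.fg_bot, Ideal.zero_mem _⟩
  · rintro x y _ _ ⟨J, h1, h2, h3⟩ ⟨J', h1', h2', h3'⟩
    refine ⟨J ⊔ J', sup_le h1 h1', Submodule.FG.sup h2 h2', ?_⟩
    exact Ideal.add_mem _ (Ideal.map_mono le_sup_left h3) (Ideal.map_mono le_sup_right h3')
  · rintro c x _ ⟨J, h1, h2, h3⟩
    exact ⟨J, h1, h2, Ideal.mul_mem_left _ _ h3⟩

lemma exists_fg_of_le_map (p : ℕ) (I : Ideal (DD p k)) {J' : Ideal (PolyA k)} (hJ' : J'.FG)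
    (hx : J' ≤ I.map (algebraMap (DD p k) (PolyA k))) :
    ∃ J : Ideal (DD p k), J ≤ I ∧ J.FG ∧ J' ≤ J.map (algebraMap (DD p k) (PolyA k)) := by
  classical
  obtain ⟨s, rfl⟩ := hJ'
  have h : ∀ x ∈ s, ∃ J : Ideal (DD p k), J ≤ I ∧ J.FG ∧ x ∈ J.map (algebraMap (DD p k) (PolyA k)) :=
    fun x hxs => exists_fg_of_mem_map p I (hx (Ideal.subset_span hxs))
  choose! J h1 h2 h3 using h
  refine ⟨⨆ x ∈ s, J x, iSup₂_le h1, Submodule.fg_biSup _ _ h2, ?_⟩
  rw [Submodule.span_le]
  intro x hxs
  have h4 : J x ≤ ⨆ x ∈ s, J x := le_iSup₂_of_le x hxs le_rfl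
  exact Ideal.map_mono h4 (h3 x hxs)

/-- the elements of `D` outside all the `n_i` -/
def WW (p : ℕ) (k : Type) [Field k] : Submonoid (DD p k) where
  carrier := {w | ∀ i, (w : PolyA k) ∉ nA i}
  one_mem' := fun i h => (inferInstance : (nA i : Ideal (PolyA k)).IsPrime).ne_top
        ((Ideal.eq_top_iff_one _).2 h)
  mul_mem' := fun {a b} ha hb i h => by
    rcases (inferInstance : (nA i : Ideal (PolyA k)).IsPrime).mem_or_mem h with h | h
    · exact ha i h
    · exact hb i h

lemma DD_fg (p : ℕ) [hp : Fact p.Prime] [CharP k p] (I : Ideal (DD p k)) :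
    ∃ J : Ideal (DD p k), J ≤ I ∧ J.FG ∧ ∀ b ∈ I, ∃ w ∈ WW p k, w * b ∈ J := by
  obtain ⟨J', hJ'I, hJ', h⟩ := global_fg (I.map (algebraMap (DD p k) (PolyA k)))
  obtain ⟨J, hJI, hJ, hJJ'⟩ := exists_fg_of_le_map p I hJ' hJ'I
  refine ⟨J, hJI, hJ, fun b hb => ?_⟩
  obtain ⟨w, hw, hwb⟩ := h _ (Ideal.mem_map_of_mem _ hb)
  refine ⟨⟨w ^ p, pow_mem_DD p w⟩, fun i hi => ?_, ?_⟩
  · exact hw i ((inferInstance : (nA i : Ideal (PolyA k)).IsPrime).mem_of_pow_mem p hi)
  · have h1 : algebraMap (DD p k) (PolyA k) (⟨w ^ p, pow_mem_DD p w⟩ * b) ∈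
        J.map (algebraMap (DD p k) (PolyA k)) := by
      rw [map_mul]
      change w ^ p * _ ∈ _
      obtain ⟨n, hn⟩ : ∃ n, p = n + 1 := ⟨p - 1, by have := hp.1.pos; omega⟩
      have : w ^ p = w ^ n * w := by rw [hn, pow_succ]
      rw [this, mul_assoc]
      exact Ideal.mul_mem_left _ _ (hJJ' hwb)
    have h2 := prD_mem p J h1
    rwa [prD_of] at h2

/-- `W⁻¹ D` is noetherian. -/
theorem noeth (p : ℕ) [Fact p.Prime] [CharP k p] (R : Type) [CommRing R] [Algebra (DD p k) R]
    [IsLocalization (WW p k) R] : IsNoetherianRing R := by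
  rw [isNoetherianRing_iff_ideal_fg]
  intro 𝔞
  obtain ⟨J, hJI, hJ, h⟩ := DD_fg p (𝔞.comap (algebraMap (DD p k) R))
  have : 𝔞 = J.map (algebraMap (DD p k) R) := by
    apply le_antisymm
    · intro x hx
      obtain ⟨b, v, rfl⟩ := IsLocalization.exists_mk'_eq (WW p k) x
      have hb : b ∈ 𝔞.comap (algebraMap (DD p k) R) := by
        rw [Ideal.mem_comap, ← IsLocalization.mk'_spec R b v]
        exact 𝔞.mul_mem_right _ hx
      obtain ⟨w, hw, hwb⟩ := h b hb
      have h1 : algebraMap (DD p k) R (w * b) ∈ J.map (algebraMap (DD p k) R) :=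
        Ideal.mem_map_of_mem _ hwb
      rw [map_mul, ← IsLocalization.mk'_spec R b v] at h1
      have hu : IsUnit (algebraMap (DD p k) R w) := IsLocalization.map_units R ⟨w, hw⟩
      have hv : IsUnit (algebraMap (DD p k) R v) := IsLocalization.map_units R v
      rw [Ideal.unit_mul_mem_iff_mem _ hu, Ideal.mul_unit_mem_iff_mem _ hv] at h1
      exact h1
    · rw [Ideal.map_le_iff_le_comap]
      exact hJI
  rw [this]
  exact hJ.map _

end

end Pool.Agent.H338R3
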