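import Pool.Agent.H338R3.HochC

set_option autoImplicit false

/-! Helper file (helper338): the local rings of `R = W⁻¹ D` at the primes `n_i` are not regular. -/

namespace Pool.Agent.H338R3

open MvPolynomial

section

variable {k : Type} [Field k]

/-- `x_i ↦ t`, `y_i ↦ s t`, the other variables are mapped to constants. -/
noncomputable def Psi (i : ℕ) : PolyA k →ₐ[k] Polynomial (Polynomial (FractionRing (PolyA k))) :=
  aeval (fun a : ℕ × Bool => if a.1 = i then
      (if a.2 then Polynomial.C Polynomial.X * Polynomial.X else Polynomial.X)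
    else Polynomial.C (Polynomial.C (algebraMap (PolyA k) (FractionRing (PolyA k)) (X a))))

lemma Psi_x (i : ℕ) : Psi i (X (i, false) : PolyA k) = Polynomial.X := by
  simp [Psi]

lemma Psi_y (i : ℕ) : Psi i (X (i, true) : PolyA k) = Polynomial.C Polynomial.X * Polynomial.X := by
  simp [Psi]

lemma Psi_ne {i j : ℕ} (h : j ≠ i) (b : Bool) : Psi i (X (j, b) : PolyA k) =
    Polynomial.C (Polynomial.C (algebraMap (PolyA k) (FractionRing (PolyA k)) (X (j, b)))) := by
  simp [Psi, h]

lemma Psi_monomial_one (i : ℕ) (m : (ℕ × Bool) →₀ ℕ) :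
    ∃ q : Polynomial (FractionRing (PolyA k)), Psi i (monomial m (1:k)) =
      Polynomial.C q * Polynomial.X ^ (m (i, false) + m (i, true)) := by
  induction m using Finsupp.induction_linear with
  | zero =>
    refine ⟨1, ?_⟩
    have : (monomial (0 : (ℕ × Bool) →₀ ℕ) (1:k)) = 1 := rfl
    rw [this, map_one]
    simp
  | add f g hf hg =>
    obtain ⟨q, hq⟩ := hf
    obtain ⟨q', hq'⟩ := hg
    refine ⟨q * q', ?_⟩
    have : (monomial (f + g) (1:k)) = monomial f 1 * monomial g 1 := by
      rw [monomial_mul, one_mul]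
    rw [this, map_mul, hq, hq', Polynomial.C_mul]
    simp only [Finsupp.add_apply]
    ring
  | single a b =>
    obtain ⟨j, β⟩ := a
    rw [← X_pow_eq_monomial, map_pow]
    by_cases h : j = i
    · subst h
      cases β
      · refine ⟨1, ?_⟩
        rw [Psi_x]
        simp
      · refine ⟨Polynomial.X ^ b, ?_⟩
        have h3 : ((j, true) : ℕ × Bool) ≠ (j, false) := by simp
        rw [Psi_y, Finsupp.single_eq_same, Finsupp.single_apply, if_neg h3, zero_add,
          Polynomial.C_pow]
        exact mul_pow (Polynomial.C Polynomial.X : Polynomial (Polynomial (FractionRing (PolyA k))))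
          Polynomial.X b
    · rw [Psi_ne h]
      refine ⟨(Polynomial.C (algebraMap (PolyA k) (FractionRing (PolyA k)) (X (j, β)))) ^ b, ?_⟩
      rw [Polynomial.C_pow]
      simp [h]

lemma Psi_monomial (i : ℕ) (m : (ℕ × Bool) →₀ ℕ) (c : k) :
    ∃ q : Polynomial (FractionRing (PolyA k)), Psi i (monomial m c) =
      Polynomial.C q * Polynomial.X ^ (m (i, false) + m (i, true)) := by
  obtain ⟨q, hq⟩ := Psi_monomial_one (k := k) i m
  refine ⟨algebraMap k _ c * q, ?_⟩
  have : (monomial m c : PolyA k) = algebraMap k (PolyA k) c * monomial m 1 := by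
    rw [MvPolynomial.algebraMap_eq, C_mul_monomial, mul_one]
  rw [this, map_mul, AlgHom.commutes, hq, Polynomial.C_mul]
  have h2 : algebraMap k (Polynomial (Polynomial (FractionRing (PolyA k)))) c =
    Polynomial.C (algebraMap k (Polynomial (FractionRing (PolyA k))) c) := rfl
  rw [h2]
  ring

lemma Psi_coeff_eq_zero (p i : ℕ) {f : PolyA k} (hf : f ∈ DD p k) {n : ℕ} (hn : ¬ p ∣ n) :
    (Psi i f).coeff n = 0 := by
  have h1 : f = ∑ m ∈ f.support, monomial m (f.coeff m) := by
    rw [MvPolynomial.support_sum_monomial_coeff]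
  rw [h1, map_sum, Polynomial.finsetSum_coeff]
  refine Finset.sum_eq_zero fun m hm => ?_
  obtain ⟨q, hq⟩ := Psi_monomial i m (f.coeff m)
  rw [hq, Polynomial.coeff_C_mul, Polynomial.coeff_X_pow, if_neg, mul_zero]
  rintro rfl
  exact hn (hf m hm i)

lemma Psi_coeff_zero (i : ℕ) (f : PolyA k) :
    (Psi i f).coeff 0 = Polynomial.C (algebraMap (PolyA k) (FractionRing (PolyA k)) (ep i f)) := by
  have : (Polynomial.constantCoeff.comp (Psi i : PolyA k →ₐ[k] _).toRingHom) =
      (Polynomial.C.comp (algebraMap (PolyA k) (FractionRing (PolyA k)))).comp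
        (ep i : PolyA k →ₐ[k] _).toRingHom := by
    apply MvPolynomial.ringHom_ext
    · intro r
      simp only [RingHom.comp_apply]
      change ((Psi i) (algebraMap k (PolyA k) r)).coeff 0 = Polynomial.C (algebraMap _ _
        (ep i (algebraMap k (PolyA k) r)))
      rw [AlgHom.commutes, AlgHom.commutes]
      change (Polynomial.C (algebraMap k (Polynomial (FractionRing (PolyA k))) r)).coeff 0 = _
      rw [Polynomial.coeff_C_zero, ← IsScalarTower.algebraMap_apply]
      rfl
    · rintro ⟨j, b⟩
      simp only [RingHom.comp_apply]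
      change ((Psi i) (X (j, b))).coeff 0 = Polynomial.C (algebraMap _ _ (ep i (X (j, b))))
      by_cases h : j = i
      · subst h
        rw [ep_X_self]
        cases b
        · rw [Psi_x]; simp
        · rw [Psi_y]; simp
      · rw [ep_X_of_ne h, Psi_ne h]
        simp
  exact DFunLike.congr_fun this f

/-- the derivation-like map: the coefficient of `t^p` -/
noncomputable def del (p i : ℕ) (f : PolyA k) : Polynomial (FractionRing (PolyA k)) :=
  (Psi i f).coeff p

lemma del_add (p i : ℕ) (f g : PolyA k) : del p i (f + g) = del p i f + del p i g := by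
  simp [del]

lemma del_zero (p i : ℕ) : del p i (0 : PolyA k) = 0 := by
  simp [del]

lemma del_mul (p : ℕ) [hp : Fact p.Prime] (i : ℕ) {f g : PolyA k} (hf : f ∈ DD p k) :
    del p i (f * g) = algebraMap (PolyA k) (FractionRing (PolyA k)) (ep i f) • del p i g +
      algebraMap (PolyA k) (FractionRing (PolyA k)) (ep i g) • del p i f := by
  unfold del
  rw [map_mul, Polynomial.coeff_mul,
    Finset.Nat.sum_antidiagonal_eq_sum_range_succ (fun a b => (Psi i f).coeff a * (Psi i g).coeff b)]
  obtain ⟨n, hn⟩ : ∃ n, p = n + 1 := ⟨p - 1, by have := hp.1.pos; omega⟩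
  rw [Finset.sum_range_succ, hn, Finset.sum_range_succ']
  rw [Finset.sum_eq_zero, zero_add]
  · simp only [Nat.sub_self, Nat.sub_zero, Psi_coeff_zero]
    rw [Polynomial.smul_eq_C_mul, Polynomial.smul_eq_C_mul, mul_comm ((Psi i f).coeff (n+1))]
  · intro a ha
    rw [Finset.mem_range] at ha
    rw [Psi_coeff_eq_zero p i hf, zero_mul]
    intro h
    have := Nat.le_of_dvd (by omega) h
    omega

end

end Pool.Agent.H338R3
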