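import Pool.Agent.H338R3.HochD

set_option autoImplicit false

/-! Helper file (helper338): the local rings of `R = W⁻¹ D` at the primes `n_i` are not regular. -/

namespace Pool.Agent.H338R3

open MvPolynomial

section

variable {k : Type} [Field k]

/-- the prime ideal `n_i ∩ D` -/
noncomputable def nD (p i : ℕ) : Ideal (DD p k) := (nA i).comap (algebraMap (DD p k) (PolyA k))

instance (p i : ℕ) : (nD p i : Ideal (DD p k)).IsPrime := Ideal.comap_isPrime _ _

lemma mem_nD {p i : ℕ} {f : DD p k} : f ∈ nD p i ↔ ep i (f : PolyA k) = 0 := by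
  unfold nD
  rw [Ideal.mem_comap, mem_nA]
  rfl

variable (k) in
/-- `x_i^p` -/
noncomputable def ex (p i : ℕ) : DD p k := ⟨X (i, false) ^ p, X_pow_mem_DD p _⟩

variable (k) in
/-- `y_i^p` -/
noncomputable def ey (p i : ℕ) : DD p k := ⟨X (i, true) ^ p, X_pow_mem_DD p _⟩

lemma exy_mem (p : ℕ) [hp : Fact p.Prime] (i : ℕ) :
    (X (i, false) ^ (p - 1) * X (i, true) : PolyA k) ∈ DD p k := by
  have : (X (i, false) ^ (p - 1) * X (i, true) : PolyA k) =
      monomial (Finsupp.single (i, false) (p - 1) + Finsupp.single (i, true) 1) 1 := by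
    rw [X_pow_eq_monomial, X, monomial_mul, one_mul]
  rw [this]
  refine monomial_mem_DD (fun j => ?_) 1
  have := hp.1.pos
  by_cases h : i = j
  · subst h
    have h1 : (Finsupp.single (i, false) (p - 1) + Finsupp.single (i, true) 1 : (ℕ × Bool) →₀ ℕ) (i, false)
      + (Finsupp.single (i, false) (p - 1) + Finsupp.single (i, true) 1 : (ℕ × Bool) →₀ ℕ) (i, true) = p := by
      simp
      omega
    rw [h1]
  · have h1 : (Finsupp.single (i, false) (p - 1) + Finsupp.single (i, true) 1 : (ℕ × Bool) →₀ ℕ) (j, false)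
      + (Finsupp.single (i, false) (p - 1) + Finsupp.single (i, true) 1 : (ℕ × Bool) →₀ ℕ) (j, true) = 0 := by
      simp [h]
    rw [h1]
    exact dvd_zero _

variable (k) in
/-- `x_i^{p-1} y_i` -/
noncomputable def exy (p : ℕ) [Fact p.Prime] (i : ℕ) : DD p k :=
  ⟨X (i, false) ^ (p - 1) * X (i, true), exy_mem p i⟩

lemma ex_mem_nD (p : ℕ) [hp : Fact p.Prime] (i : ℕ) : ex k p i ∈ nD p i := by
  rw [mem_nD]
  change ep i (X (i, false) ^ p) = 0
  rw [map_pow, ep_X_self, zero_pow hp.1.ne_zero]

lemma ey_mem_nD (p : ℕ) [hp : Fact p.Prime] (i : ℕ) : ey k p i ∈ nD p i := by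
  rw [mem_nD]
  change ep i (X (i, true) ^ p) = 0
  rw [map_pow, ep_X_self, zero_pow hp.1.ne_zero]

lemma exy_mem_nD (p : ℕ) [hp : Fact p.Prime] (i : ℕ) : exy k p i ∈ nD p i := by
  rw [mem_nD]
  change ep i (X (i, false) ^ (p - 1) * X (i, true)) = 0
  rw [map_mul, ep_X_self, mul_zero]

lemma del_ex (p : ℕ) (i : ℕ) : del p i (ex k p i : PolyA k) = Polynomial.monomial 0 1 := by
  unfold del
  change (Psi i (X (i, false) ^ p)).coeff p = _
  rw [map_pow, Psi_x, Polynomial.coeff_X_pow, if_pos rfl]
  rfl

lemma del_ey (p : ℕ) (i : ℕ) : del p i (ey k p i : PolyA k) = Polynomial.monomial p 1 := by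
  unfold del
  change (Psi i (X (i, true) ^ p)).coeff p = _
  have h1 : (Polynomial.C Polynomial.X * Polynomial.X :
      Polynomial (Polynomial (FractionRing (PolyA k)))) ^ p =
      Polynomial.C (Polynomial.X ^ p) * Polynomial.X ^ p := by
    rw [Polynomial.C_pow]
    exact mul_pow (Polynomial.C Polynomial.X : Polynomial (Polynomial (FractionRing (PolyA k))))
          Polynomial.X p
  rw [map_pow, Psi_y, h1, Polynomial.coeff_C_mul, Polynomial.coeff_X_pow, if_pos rfl, mul_one,
    Polynomial.X_pow_eq_monomial]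

lemma del_exy (p : ℕ) [hp : Fact p.Prime] (i : ℕ) :
    del p i (exy k p i : PolyA k) = Polynomial.monomial 1 1 := by
  unfold del
  change (Psi i (X (i, false) ^ (p - 1) * X (i, true))).coeff p = _
  have h1 : (Polynomial.X ^ (p - 1) * (Polynomial.C Polynomial.X * Polynomial.X) :
      Polynomial (Polynomial (FractionRing (PolyA k)))) =
      Polynomial.C Polynomial.X * Polynomial.X ^ p := by
    obtain ⟨n, hn⟩ : ∃ n, p = n + 1 := ⟨p - 1, by have := hp.1.pos; omega⟩
    rw [hn, Nat.add_sub_cancel]
    ring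
  rw [map_mul, map_pow, Psi_x, Psi_y, h1, Polynomial.coeff_C_mul, Polynomial.coeff_X_pow,
    if_pos rfl, mul_one]
  rfl

lemma pow_mem_span (p : ℕ) [hp : Fact p.Prime] [CharP k p] (i : ℕ) {f : DD p k} (hf : f ∈ nD p i) :
    f ^ p ∈ Ideal.span {ex k p i, ey k p i} := by
  have : ExpChar (PolyA k) p := ExpChar.prime hp.1
  obtain ⟨a, b, h⟩ := nA_le_span i (show (f : PolyA k) ∈ nA i from hf)
  rw [Ideal.mem_span_pair]
  refine ⟨⟨a ^ p, pow_mem_DD p a⟩, ⟨b ^ p, pow_mem_DD p b⟩, ?_⟩
  apply Subtype.ext
  change a ^ p * X (i, false) ^ p + b ^ p * X (i, true) ^ p = (f : PolyA k) ^ p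
  rw [h, add_pow_expChar, mul_pow, mul_pow]

lemma dim_le (p : ℕ) [hp : Fact p.Prime] [CharP k p] (i : ℕ) (S : Type) [CommRing S]
    [Algebra (DD p k) S] [IsLocalization.AtPrime S (nD p i : Ideal (DD p k))]
    [IsLocalRing S] [IsNoetherianRing S] : ringKrullDim S ≤ 2 := by
  classical
  rw [← IsLocalRing.maximalIdeal_height_eq_ringKrullDim]
  have h1 : IsLocalRing.maximalIdeal S ∈
      (Ideal.span (({algebraMap (DD p k) S (ex k p i), algebraMap (DD p k) S (ey k p i)} : Finset S) : Set S)).minimalPrimes := by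
    refine ⟨⟨inferInstance, ?_⟩, ?_⟩
    · rw [Ideal.span_le]
      intro z hz
      simp only [Finset.coe_insert, Finset.coe_singleton, Set.mem_insert_iff,
        Set.mem_singleton_iff] at hz
      have hex : algebraMap (DD p k) S (ex k p i) ∈ IsLocalRing.maximalIdeal S :=
        (IsLocalization.AtPrime.to_map_mem_maximal_iff S (nD p i) (ex k p i)).2 (ex_mem_nD p i)
      have hey : algebraMap (DD p k) S (ey k p i) ∈ IsLocalRing.maximalIdeal S :=
        (IsLocalization.AtPrime.to_map_mem_maximal_iff S (nD p i) (ey k p i)).2 (ey_mem_nD p i)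
      rcases hz with hz | hz
      · rw [hz]; exact hex
      · rw [hz]; exact hey
    · rintro q ⟨hq, hspan⟩ - z hz
      obtain ⟨f, u, rfl⟩ := IsLocalization.exists_mk'_eq (nD p i : Ideal (DD p k)).primeCompl z
      replace hz := (IsLocalization.AtPrime.mk'_mem_maximal_iff S (nD p i) f u).1 hz
      have h2 := pow_mem_span p i hz
      have h3 := Ideal.mem_map_of_mem (algebraMap (DD p k) S) h2
      rw [Ideal.map_span, Set.image_pair, map_pow] at h3
      have h4 : algebraMap (DD p k) S f ^ p ∈ q := by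
        apply hspan
        rw [Finset.coe_insert, Finset.coe_singleton]
        exact h3
      have h5 := hq.mem_of_pow_mem p h4
      rw [← IsLocalization.mk'_spec S f u] at h5
      exact (Ideal.mul_unit_mem_iff_mem _ (IsLocalization.map_units S u)).1 h5
  have h2 := Ideal.height_le_card_of_mem_minimalPrimes_span_finset h1
  have h3 : (IsLocalRing.maximalIdeal S).height ≤ (2 : ℕ∞) :=
    h2.trans (Nat.cast_le.2 (Finset.card_le_two))
  exact WithBot.coe_le_coe.2 h3

/-- The key property: the value of `del` at an element of `D` that lies in the span of a set. -/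
lemma del_mem (p : ℕ) [hp : Fact p.Prime] (i : ℕ) (S : Type) [CommRing S]
    [Algebra (DD p k) S] [IsLocalization.AtPrime S (nD p i : Ideal (DD p k))]
    (s : Set S) (f : S → DD p k) (u : S → DD p k) (hf : ∀ a ∈ s, f a ∈ nD p i)
    (hu : ∀ a ∈ s, u a ∉ nD p i) (hfu : ∀ a ∈ s, algebraMap (DD p k) S (u a) * a = algebraMap (DD p k) S (f a))
    {z : S} (hz : z ∈ Ideal.span s) :
    ∃ g ∈ nD p i, ∃ v ∉ nD p i, algebraMap (DD p k) S v * z = algebraMap (DD p k) S g ∧
      del p i (g : PolyA k) ∈ Submodule.span (FractionRing (PolyA k)) ((fun a => del p i (f a : PolyA k)) '' s) := by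
  refine Submodule.span_induction (p := fun z _ => ∃ g ∈ nD p i, ∃ v ∉ nD p i,
      algebraMap (DD p k) S v * z = algebraMap (DD p k) S g ∧
      del p i (g : PolyA k) ∈ Submodule.span (FractionRing (PolyA k))
        ((fun a => del p i (f a : PolyA k)) '' s)) ?_ ?_ ?_ ?_ hz
  · intro a ha
    exact ⟨f a, hf a ha, u a, hu a ha, hfu a ha, Submodule.subset_span ⟨a, ha, rfl⟩⟩
  · refine ⟨0, Ideal.zero_mem _, 1, fun h => ?_, by simp, ?_⟩
    · exact (inferInstance : (nD p i : Ideal (DD p k)).IsPrime).ne_top ((Ideal.eq_top_iff_one _).2 h)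
    · have : del p i ((0 : DD p k) : PolyA k) = 0 := del_zero p i
      rw [this]
      exact Submodule.zero_mem _
  · rintro x y _ _ ⟨g, hg, v, hv, h1, h2⟩ ⟨g', hg', v', hv', h1', h2'⟩
    refine ⟨v' * g + v * g', Ideal.add_mem _ (Ideal.mul_mem_left _ _ hg) (Ideal.mul_mem_left _ _ hg'),
      v * v', fun h => ?_, ?_, ?_⟩
    · rcases (inferInstance : (nD p i : Ideal (DD p k)).IsPrime).mem_or_mem h with h | h
      · exact hv h
      · exact hv' h
    · rw [map_mul, map_add, map_mul, map_mul, ← h1, ← h1']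
      ring
    · have e : ((v' * g + v * g' : DD p k) : PolyA k) =
        (v' : PolyA k) * (g : PolyA k) + (v : PolyA k) * (g' : PolyA k) := rfl
      rw [e, del_add, del_mul p i v'.2, del_mul p i v.2, mem_nD.1 hg, mem_nD.1 hg', map_zero, zero_smul,
        zero_smul, add_zero, add_zero]
      exact Submodule.add_mem _ (Submodule.smul_mem _ _ h2) (Submodule.smul_mem _ _ h2')
  · rintro c x _ ⟨g, hg, v, hv, h1, h2⟩
    obtain ⟨a, w, rfl⟩ := IsLocalization.exists_mk'_eq (nD p i : Ideal (DD p k)).primeCompl c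
    refine ⟨a * g, Ideal.mul_mem_left _ _ hg, w * v, fun h => ?_, ?_, ?_⟩
    · rcases (inferInstance : (nD p i : Ideal (DD p k)).IsPrime).mem_or_mem h with h | h
      · exact w.2 h
      · exact hv h
    · rw [map_mul, map_mul, ← h1, ← IsLocalization.mk'_spec S a w, smul_eq_mul]
      ring
    · have e : ((a * g : DD p k) : PolyA k) = (a : PolyA k) * (g : PolyA k) := rfl
      rw [e, del_mul p i a.2, mem_nD.1 hg, map_zero, zero_smul, add_zero]
      exact Submodule.smul_mem _ _ h2

/-- The local ring of `D` at `n_i` is not regular. -/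
theorem not_regular (p : ℕ) [hp : Fact p.Prime] [CharP k p] (i : ℕ) (S : Type) [CommRing S]
    [Algebra (DD p k) S] [IsLocalization.AtPrime S (nD p i : Ideal (DD p k))] :
    ¬ IsRegularLocalRing S := by
  classical
  intro hreg
  have hdim := dim_le (k := k) p i S
  have hr := hreg.spanFinrank_maximalIdeal
  have hle : (IsLocalRing.maximalIdeal S).spanFinrank ≤ 2 := by
    rw [← hr] at hdim
    exact_mod_cast hdim
  obtain ⟨s, hs, hspan⟩ := Submodule.FG.exists_span_finset_card_eq_spanFinrank
    (IsNoetherian.noetherian (IsLocalRing.maximalIdeal S))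
  have hrep : ∀ a ∈ (s : Set S), ∃ f : DD p k, ∃ u : DD p k, f ∈ nD p i ∧ u ∉ nD p i ∧
      algebraMap (DD p k) S u * a = algebraMap (DD p k) S f := by
    intro a ha
    have ham : a ∈ IsLocalRing.maximalIdeal S := by
      rw [← hspan]
      exact Submodule.subset_span ha
    obtain ⟨f, u, rfl⟩ := IsLocalization.exists_mk'_eq (nD p i : Ideal (DD p k)).primeCompl a
    replace ham := (IsLocalization.AtPrime.mk'_mem_maximal_iff S (nD p i) f u).1 ham
    refine ⟨f, u, ham, u.2, ?_⟩
    rw [mul_comm, IsLocalization.mk'_spec]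
  choose! f u hfuu using hrep
  have hf := fun a ha => (hfuu a ha).1
  have hu := fun a ha => (hfuu a ha).2.1
  have hfu := fun a ha => (hfuu a ha).2.2
  have hDS : Function.Injective (algebraMap (DD p k) S) :=
    IsLocalization.injective S (M := (nD p i : Ideal (DD p k)).primeCompl)
      (Ideal.primeCompl_le_nonZeroDivisors _)
  -- the three elements
  have key : ∀ x : DD p k, x ∈ nD p i → del p i (x : PolyA k) ∈
      Submodule.span (FractionRing (PolyA k)) ((fun a => del p i (f a : PolyA k)) '' (s : Set S)) := by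
    intro x hx
    have hxm : algebraMap (DD p k) S x ∈ Ideal.span (s : Set S) := by
      have : Ideal.span (s : Set S) = IsLocalRing.maximalIdeal S := hspan
      rw [this]
      exact (IsLocalization.AtPrime.to_map_mem_maximal_iff S (nD p i) x).2 hx
    obtain ⟨g, hg, v, hv, h1, h2⟩ := del_mem p i S (s : Set S) f u hf hu hfu hxm
    rw [← map_mul] at h1
    have h3 : v * x = g := hDS h1
    have h4 : del p i (g : PolyA k) =
        algebraMap (PolyA k) (FractionRing (PolyA k)) (ep i v) • del p i (x : PolyA k) := by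
      rw [← h3]
      have e : ((v * x : DD p k) : PolyA k) = (v : PolyA k) * (x : PolyA k) := rfl
      rw [e, del_mul p i v.2, mem_nD.1 hx, map_zero, zero_smul, add_zero]
    rw [h4] at h2
    have hne : algebraMap (PolyA k) (FractionRing (PolyA k)) (ep i v) ≠ 0 := by
      intro h0
      apply hv
      rw [mem_nD]
      apply IsFractionRing.injective (PolyA k) (FractionRing (PolyA k))
      rw [h0, map_zero]
    have h5 := Submodule.smul_mem _ (algebraMap (PolyA k) (FractionRing (PolyA k)) (ep i v))⁻¹ h2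
    rwa [smul_smul, inv_mul_cancel₀ hne, one_smul] at h5
  have hli : LinearIndependent (FractionRing (PolyA k))
      (fun j : Fin 3 => (Polynomial.basisMonomials (FractionRing (PolyA k))) (![0, 1, p] j)) := by
    refine (Polynomial.basisMonomials (FractionRing (PolyA k))).linearIndependent.comp _ ?_
    have h2 := hp.1.two_le
    intro a b hab
    fin_cases a <;> fin_cases b <;> simp at hab ⊢ <;> omega
  have hcard := linearIndependent_le_span' _ hli
    ((s.image (fun a => del p i (f a : PolyA k)) : Finset _) : Set (Polynomial (FractionRing (PolyA k)))) (by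
      rintro _ ⟨j, rfl⟩
      rw [Finset.coe_image]
      fin_cases j
      · have := key _ (ex_mem_nD p i)
        rw [del_ex] at this
        simpa using this
      · have := key _ (exy_mem_nD p i)
        rw [del_exy] at this
        simpa using this
      · have := key _ (ey_mem_nD p i)
        rw [del_ey] at this
        simpa using this)
  simp only [Cardinal.mk_fintype, Fintype.card_fin] at hcard
  have h6 : (s.image (fun a => del p i (f a : PolyA k))).card ≤ 2 :=
    Finset.card_image_le.trans (hs.le.trans hle)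
  have h7 : 3 ≤ (s.image (fun a => del p i (f a : PolyA k))).card := by
    simpa using hcard
  omega

end

end Pool.Agent.H338R3
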