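import Pool.Agent.H338R3.TreeLabel

/-!
A layered lamp action of a free group, and the subgroups attached to labellings.
-/

set_option autoImplicit false

namespace Pool.Agent.H338R3


/-- Lamps, a position, and one of two layers. -/
abbrev Om : Type := (F2 → ℤ) × F2 × Bool

lemma perm_inv_self {β : Type*} (q : Equiv.Perm β) (w : β) : q (q⁻¹ w) = w :=
  q.apply_symm_apply w

/-- The generator moved by the square of the first letter. -/
def gX : F2 := el (false, true)

/-- The generator moved by the second letter. -/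
def gZ : F2 := el (true, true)

/-- The first letter swaps layers; its square moves by `gX`. -/
def pA : Equiv.Perm Om where
  toFun := fun w => if w.2.2 then (w.1, gX * w.2.1, false) else (w.1, w.2.1, true)
  invFun := fun w => if w.2.2 then (w.1, w.2.1, false) else (w.1, gX⁻¹ * w.2.1, true)
  left_inv := by
    rintro ⟨φ, g, i⟩
    cases i <;> simp
  right_inv := by
    rintro ⟨φ, g, i⟩
    cases i <;> simp

open Classical in
/-- The second letter moves by `gZ` in the lower layer and changes the lamp in the upper one. -/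
noncomputable def pB : Equiv.Perm Om where
  toFun := fun w => if w.2.2 then (w.1 + Pi.single w.2.1 1, w.2.1, true)
    else (w.1, gZ * w.2.1, false)
  invFun := fun w => if w.2.2 then (w.1 - Pi.single w.2.1 1, w.2.1, true)
    else (w.1, gZ⁻¹ * w.2.1, false)
  left_inv := by
    rintro ⟨φ, g, i⟩
    cases i <;> simp
  right_inv := by
    rintro ⟨φ, g, i⟩
    cases i <;> simp

/-- Translation of lamps and right translation of positions. -/
def tr (ψ : F2 → ℤ) (h : F2) (w : Om) : Om :=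
  (fun k => ψ k + w.1 (k * h⁻¹), w.2.1 * h, w.2.2)

open Classical in
lemma pA_tr (ψ : F2 → ℤ) (h : F2) (w : Om) : pA (tr ψ h w) = tr ψ h (pA w) := by
  obtain ⟨φ, g, i⟩ := w
  cases i <;> simp [pA, tr, mul_assoc]

open Classical in
lemma pB_tr (ψ : F2 → ℤ) (h : F2) (w : Om) : pB (tr ψ h w) = tr ψ h (pB w) := by
  obtain ⟨φ, g, i⟩ := w
  cases i
  · simp [pB, tr, mul_assoc]
  · simp only [pB, tr, Equiv.coe_fn_mk, ↓reduceIte, Prod.mk.injEq, and_true]
    funext k
    simp only [Pi.add_apply, Pi.single_apply, mul_inv_eq_iff_eq_mul]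
    ring

/-- The permutations that commute with translations, act on the layer by a fixed shift, and
change finitely many lamps. -/
def Nice : Subgroup (Equiv.Perm Om) where
  carrier := {q | (∀ ψ h w, q (tr ψ h w) = tr ψ h (q w)) ∧
    (∃ ε : Bool, ∀ w, (q w).2.2 = xor w.2.2 ε) ∧
    ∀ w, {k | (q w).1 k ≠ w.1 k}.Finite}
  one_mem' := ⟨fun _ _ _ => rfl, ⟨false, fun w => by simp⟩, fun w => by simp⟩
  mul_mem' := by
    rintro p q ⟨hp1, ⟨ε, hp2⟩, hp3⟩ ⟨hq1, ⟨ε', hq2⟩, hq3⟩
    refine ⟨fun ψ h w => ?_, ⟨xor ε' ε, fun w => ?_⟩, fun w => ?_⟩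
    · rw [Equiv.Perm.mul_apply, hq1, hp1, Equiv.Perm.mul_apply]
    · rw [Equiv.Perm.mul_apply, hp2, hq2, Bool.xor_assoc]
    · apply ((hp3 (q w)).union (hq3 w)).subset
      intro k hk
      by_contra hc
      simp only [Set.mem_union, Set.mem_ofPred_eq, not_or, not_not] at hc
      exact hk (by rw [Equiv.Perm.mul_apply, hc.1, hc.2])
  inv_mem' := by
    rintro q ⟨hq1, ⟨ε, hq2⟩, hq3⟩
    refine ⟨fun ψ h w => ?_, ⟨ε, fun w => ?_⟩, fun w => ?_⟩
    · rw [Equiv.Perm.inv_eq_iff_eq, hq1, perm_inv_self]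
    · have := hq2 (q⁻¹ w)
      rw [perm_inv_self] at this
      rw [this, Bool.xor_assoc, Bool.xor_self, Bool.xor_false]
    · have := hq3 (q⁻¹ w)
      rw [perm_inv_self] at this
      apply this.subset
      intro k hk
      exact fun h => hk h.symm

open Classical in
lemma pA_nice : pA ∈ Nice := by
  refine ⟨pA_tr, ⟨true, ?_⟩, ?_⟩
  · rintro ⟨φ, g, i⟩
    cases i <;> simp [pA]
  · rintro ⟨φ, g, i⟩
    cases i <;> simp [pA]

open Classical in
lemma pB_nice : pB ∈ Nice := by
  refine ⟨pB_tr, ⟨false, ?_⟩, ?_⟩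
  · rintro ⟨φ, g, i⟩
    cases i <;> simp [pB]
  · rintro ⟨φ, g, i⟩
    cases i
    · simp [pB]
    · apply (Set.finite_singleton g).subset
      intro k hk
      by_contra hc
      apply hk
      have : k ≠ g := hc
      simp [pB, this]

/-- The modulus of a label. -/
def md (s : Sg) : ℕ := 1 + (if s.1 then 2 else 0) + (if s.2 then 1 else 0)

lemma md_pos (s : Sg) : 0 < md s := by
  unfold md; omega

lemma md_inj {s t : Sg} (h : md s = md t) : s = t := by
  revert h
  revert s t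
  decide

universe u

variable {α : Type u} (a0 a1 : α)

open Classical in
/-- The action of the free group. -/
noncomputable def ac : FreeGroup α →* Equiv.Perm Om :=
  FreeGroup.lift (fun a => if a = a0 then pA else if a = a1 then pB else 1)

lemma ac_nice (w : FreeGroup α) : ac a0 a1 w ∈ Nice := by
  classical
  have hof : ∀ a, ac a0 a1 (FreeGroup.of a) ∈ Nice := by
    intro a
    simp only [ac, FreeGroup.lift_apply_of]
    split_ifs
    · exact pA_nice
    · exact pB_nice
    · exact Nice.one_mem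
  induction w using FreeGroup.induction_on with
  | C1 => rw [map_one]; exact Nice.one_mem
  | of x => exact hof x
  | inv_of x hx => rw [map_inv]; exact Nice.inv_mem (hof x)
  | mul x y hx hy => rw [map_mul]; exact Nice.mul_mem hx hy

lemma ac_a0 : ac a0 a1 (FreeGroup.of a0) = pA := by
  simp [ac]

lemma ac_a1 (h : a0 ≠ a1) : ac a0 a1 (FreeGroup.of a1) = pB := by
  simp [ac, h.symm]

/-- The base point in a layer. -/
def bp (i : Bool) : Om := (0, 1, i)

/-- The subgroup attached to a labelling and a layer: words returning to the base position whose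
lamp at each position is divisible by the modulus of the label. -/
noncomputable def SS (y : F2 → Sg) (i : Bool) : Subgroup (FreeGroup α) where
  carrier := {w | (ac a0 a1 w (bp i)).2 = (1, i) ∧
    ∀ k, (md (y k) : ℤ) ∣ (ac a0 a1 w (bp i)).1 k}
  one_mem' := by
    simp [bp]
  mul_mem' := by
    rintro v w ⟨hv1, hv2⟩ ⟨hw1, hw2⟩
    have key : ac a0 a1 (v * w) (bp i) =
        tr (ac a0 a1 w (bp i)).1 1 (ac a0 a1 v (bp i)) := by
      rw [← (ac_nice a0 a1 v).1, map_mul, Equiv.Perm.mul_apply]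
      congr 1
      refine Prod.ext ?_ ?_
      · funext k; simp [tr, bp]
      · rw [hw1]; simp [tr, bp]
    refine ⟨?_, fun k => ?_⟩
    · rw [key]
      have h1 : (ac a0 a1 v (bp i)).2.1 = 1 := by rw [hv1]
      have h2 : (ac a0 a1 v (bp i)).2.2 = i := by rw [hv1]
      simp [tr, h1, h2]
    · rw [key]
      simp only [tr, inv_one, mul_one]
      exact dvd_add (hw2 k) (hv2 k)
  inv_mem' := by
    rintro w ⟨hw1, hw2⟩
    have key : ac a0 a1 w⁻¹ (bp i) = (fun k => - (ac a0 a1 w (bp i)).1 k, 1, i) := by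
      rw [map_inv, Equiv.Perm.inv_eq_iff_eq]
      have h1 : ((fun k => - (ac a0 a1 w (bp i)).1 k, 1, i) : Om) =
          tr (fun k => - (ac a0 a1 w (bp i)).1 k) 1 (bp i) := by
        simp [tr, bp]
      rw [h1, (ac_nice a0 a1 w).1]
      refine Prod.ext ?_ ?_
      · funext k; simp [tr, bp]
      · have h1 : (ac a0 a1 w (bp i)).2.1 = 1 := by rw [hw1]
        have h2 : (ac a0 a1 w (bp i)).2.2 = i := by rw [hw1]
        refine Prod.ext ?_ ?_
        · change (1 : F2) = (ac a0 a1 w (bp i)).2.1 * 1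
          rw [h1, mul_one]
        · change i = (ac a0 a1 w (bp i)).2.2
          rw [h2]
    refine ⟨?_, fun k => ?_⟩
    · rw [key]
    · rw [key]
      exact (dvd_neg).mpr (hw2 k)

lemma mem_SS (y : F2 → Sg) (i : Bool) (w : FreeGroup α) :
    w ∈ SS a0 a1 y i ↔ (ac a0 a1 w (bp i)).2 = (1, i) ∧
      ∀ k, (md (y k) : ℤ) ∣ (ac a0 a1 w (bp i)).1 k := Iff.rfl

/-- Conjugation of the subgroups. -/
lemma conj_SS (y : F2 → Sg) (i : Bool) (w v : FreeGroup α) :
    w⁻¹ * v * w ∈ SS a0 a1 y i ↔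
      v ∈ SS a0 a1 (fun k => y (k * (ac a0 a1 w (bp i)).2.1)) (ac a0 a1 w (bp i)).2.2 := by
  rw [mem_SS, mem_SS]
  set P := ac a0 a1 w (bp i) with hP
  set h := P.2.1 with hh
  set j := P.2.2 with hj
  have hPt : P = tr P.1 h (bp j) := by
    refine Prod.ext ?_ (Prod.ext ?_ ?_)
    · funext k; simp [tr, bp]
    · simp [tr, bp, hh]
    · simp [tr, bp, hj]
  set V := ac a0 a1 v (bp j) with hV
  have h1 : ac a0 a1 (w⁻¹ * v * w) (bp i) = (ac a0 a1 w)⁻¹ (tr P.1 h V) := by
    rw [map_mul, map_mul, map_inv, Equiv.Perm.mul_apply, Equiv.Perm.mul_apply, ← hP]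
    conv_lhs => rw [hPt, (ac_nice a0 a1 v).1]
  have hpos : V.2 = (1, j) → ac a0 a1 (w⁻¹ * v * w) (bp i) =
      (fun k => V.1 (k * h⁻¹), 1, i) := by
    intro hV2
    rw [h1, Equiv.Perm.inv_eq_iff_eq]
    have h3 : ((fun k => V.1 (k * h⁻¹), 1, i) : Om) = tr (fun k => V.1 (k * h⁻¹)) 1 (bp i) := by
      simp [tr, bp]
    rw [h3, (ac_nice a0 a1 w).1, ← hP]
    refine Prod.ext ?_ (Prod.ext ?_ ?_)
    · funext k
      simp only [tr, inv_one, mul_one]
      ring
    · simp [tr, hV2, hh]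
    · simp [tr, hV2, hj]
  constructor
  · rintro ⟨h2, h3⟩
    have hV2 : V.2 = (1, j) := by
      have h4 : tr P.1 h V = ac a0 a1 w (ac a0 a1 (w⁻¹ * v * w) (bp i)) := by
        rw [h1, perm_inv_self]
      have h5 : ac a0 a1 (w⁻¹ * v * w) (bp i) =
          tr (ac a0 a1 (w⁻¹ * v * w) (bp i)).1 1 (bp i) := by
        refine Prod.ext ?_ ?_
        · funext k; simp [tr, bp]
        · rw [h2]; simp [tr, bp]
      rw [h5, (ac_nice a0 a1 w).1, ← hP] at h4
      have h6 := congrArg (fun z : Om => z.2) h4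
      simp only [tr, mul_one, Prod.mk.injEq] at h6
      refine Prod.ext ?_ ?_
      · have := h6.1
        rw [← hh] at this
        simpa using this
      · exact h6.2
    refine ⟨hV2, fun k => ?_⟩
    have := h3 (k * h)
    rw [hpos hV2] at this
    simpa using this
  · rintro ⟨hV2, h3⟩
    rw [hpos hV2]
    refine ⟨rfl, fun k => ?_⟩
    have := h3 (k * h⁻¹)
    simpa using this

/-- The word that changes the lamp in the lower layer. -/
def e0 : FreeGroup α := (FreeGroup.of a0)⁻¹ * FreeGroup.of a1 * FreeGroup.of a0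

/-- The words that move in the tree. -/
def mv (s : Sg) : FreeGroup α :=
  if s.1 then (if s.2 then FreeGroup.of a1 else (FreeGroup.of a1)⁻¹)
  else (if s.2 then FreeGroup.of a0 * FreeGroup.of a0
    else (FreeGroup.of a0)⁻¹ * (FreeGroup.of a0)⁻¹)

lemma ac_mv (h : a0 ≠ a1) (s : Sg) : ac a0 a1 (mv a0 a1 s) (bp false) = (0, el s, false) := by
  classical
  have e1 : pB (bp false) = (0, gZ, false) := by simp [pB, bp]
  have e2 : pB⁻¹ (bp false) = (0, gZ⁻¹, false) := by
    rw [Equiv.Perm.inv_eq_iff_eq]; simp [pB, bp]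
  have e3 : pA (pA (bp false)) = (0, gX, false) := by simp [pA, bp]
  have e4 : pA⁻¹ (pA⁻¹ (bp false)) = (0, gX⁻¹, false) := by
    rw [Equiv.Perm.inv_eq_iff_eq, Equiv.Perm.inv_eq_iff_eq]; simp [pA, bp]
  rcases s with ⟨s1, s2⟩
  cases s1 <;> cases s2
  · simp only [mv, Bool.false_eq_true, if_false, map_mul, map_inv, ac_a0, Equiv.Perm.mul_apply]
    rw [e4, gX, ← el_iv]
    rfl
  · simp only [mv, Bool.false_eq_true, if_false, if_true, map_mul, ac_a0, Equiv.Perm.mul_apply]
    rw [e3, gX]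
  · simp only [mv, Bool.false_eq_true, if_false, if_true, map_inv, ac_a1 a0 a1 h]
    rw [e2, gZ, ← el_iv]
    rfl
  · simp only [mv, if_true, ac_a1 a0 a1 h]
    rw [e1, gZ]

open Classical in
lemma ac_e0_false (h : a0 ≠ a1) (n : ℕ) (φ : F2 → ℤ) (g : F2) :
    ac a0 a1 (e0 a0 a1 ^ n) (φ, g, false) = (φ + Pi.single g (n : ℤ), g, false) := by
  have h1 : ∀ φ : F2 → ℤ, ac a0 a1 (e0 a0 a1) (φ, g, false) = (φ + Pi.single g 1, g, false) := by
    intro φ
    rw [e0, map_mul, map_mul, map_inv, ac_a0, ac_a1 a0 a1 h, Equiv.Perm.mul_apply,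
      Equiv.Perm.mul_apply, Equiv.Perm.inv_eq_iff_eq]
    simp [pA, pB]
  induction n with
  | zero => simp
  | succ n ih =>
    rw [pow_succ', map_mul, Equiv.Perm.mul_apply, ih, h1]
    congr 1
    rw [add_assoc, ← Pi.single_add]
    push_cast
    rfl

lemma ac_e0_true (h : a0 ≠ a1) (n : ℕ) (φ : F2 → ℤ) (g : F2) :
    ac a0 a1 (e0 a0 a1 ^ n) (φ, g, true) = (φ, gX⁻¹ * gZ ^ n * gX * g, true) := by
  classical
  have h1 : ∀ g : F2, ac a0 a1 (e0 a0 a1) (φ, g, true) = (φ, gX⁻¹ * gZ * gX * g, true) := by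
    intro g
    rw [e0, map_mul, map_mul, map_inv, ac_a0, ac_a1 a0 a1 h, Equiv.Perm.mul_apply,
      Equiv.Perm.mul_apply, Equiv.Perm.inv_eq_iff_eq]
    simp [pA, pB, mul_assoc]
  induction n with
  | zero => simp
  | succ n ih =>
    rw [pow_succ', map_mul, Equiv.Perm.mul_apply, ih, h1]
    congr 2
    group

lemma gZ_pow_ne (n : ℕ) (hn : 0 < n) : gZ ^ n ≠ 1 := by
  have h1 : gZ ≠ 1 := by
    intro h
    have := congrArg FreeGroup.toWord h
    simp [gZ, el] at this
  intro h
  have : IsOfFinOrder gZ := isOfFinOrder_iff_pow_eq_one.mpr ⟨n, hn, h⟩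
  rw [isOfFinOrder_iff_eq_one] at this
  exact h1 this

lemma e0_mem_false (h : a0 ≠ a1) (y : F2 → Sg) (n : ℕ) :
    e0 a0 a1 ^ n ∈ SS a0 a1 y false ↔ md (y 1) ∣ n := by
  classical
  rw [mem_SS, bp, ac_e0_false a0 a1 h]
  constructor
  · rintro ⟨_, h2⟩
    have := h2 1
    exact Int.natCast_dvd_natCast.mp (by simpa using this)
  · intro h1
    refine ⟨rfl, fun k => ?_⟩
    by_cases hk : k = 1
    · subst hk
      simpa using (Int.natCast_dvd_natCast.mpr h1)
    · simp [hk]

lemma e0_mem_true (h : a0 ≠ a1) (y : F2 → Sg) (n : ℕ) (hn : 0 < n) :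
    e0 a0 a1 ^ n ∉ SS a0 a1 y true := by
  rw [mem_SS, bp, ac_e0_true a0 a1 h]
  rintro ⟨h1, _⟩
  have h2 : gX⁻¹ * gZ ^ n * gX * 1 = 1 := congrArg Prod.fst h1
  apply gZ_pow_ne n hn
  have : gZ ^ n = gX * (gX⁻¹ * gZ ^ n * gX * 1) * gX⁻¹ := by group
  rw [this, h2]
  simp

end Pool.Agent.H338R3
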