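import Mathlib

set_option autoImplicit false

/-! Helper file (helper338): for every field `k` of characteristic `p` and every set `σ` of
variables, the polynomial ring `k[σ]` is a direct summand of its absolute integral closure. -/

namespace Pool.Agent.H338R3

open MvPolynomial

section

variable {σ k : Type} [Field k]

/-- the monomial `x^J` in the fraction field -/
noncomputable def mK (J : σ →₀ ℕ) : FractionRing (MvPolynomial σ k) :=
  algebraMap (MvPolynomial σ k) (FractionRing (MvPolynomial σ k)) (monomial J 1)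

/-- the monomial `x^J` in the algebraic closure -/
noncomputable def mO (J : σ →₀ ℕ) : AlgebraicClosure (FractionRing (MvPolynomial σ k)) :=
  algebraMap (MvPolynomial σ k) (AlgebraicClosure (FractionRing (MvPolynomial σ k))) (monomial J 1)

lemma mO_eq (J : σ →₀ ℕ) : (mO J : AlgebraicClosure (FractionRing (MvPolynomial σ k)))
    = algebraMap (FractionRing (MvPolynomial σ k)) _ (mK J) := by
  unfold mO mK
  rw [IsScalarTower.algebraMap_apply (MvPolynomial σ k) (FractionRing (MvPolynomial σ k))]

lemma monomial_ne (J : σ →₀ ℕ) : (monomial J (1:k)) ≠ 0 := by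
  simp

lemma mK_ne (J : σ →₀ ℕ) : (mK J : FractionRing (MvPolynomial σ k)) ≠ 0 := by
  unfold mK
  intro h
  rw [← map_zero (algebraMap (MvPolynomial σ k) (FractionRing (MvPolynomial σ k)))] at h
  exact monomial_ne J (IsFractionRing.injective _ _ h)

lemma mO_ne (J : σ →₀ ℕ) : (mO J : AlgebraicClosure (FractionRing (MvPolynomial σ k))) ≠ 0 := by
  rw [mO_eq]
  simpa using mK_ne J

lemma mK_add (J J' : σ →₀ ℕ) : (mK (J + J') : FractionRing (MvPolynomial σ k)) = mK J * mK J' := by
  unfold mK
  rw [← map_mul, monomial_mul, one_mul]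

lemma mO_add (J J' : σ →₀ ℕ) : (mO (J + J') : AlgebraicClosure (FractionRing (MvPolynomial σ k)))
    = mO J * mO J' := by
  unfold mO
  rw [← map_mul, monomial_mul, one_mul]

lemma mO_zero : (mO 0 : AlgebraicClosure (FractionRing (MvPolynomial σ k))) = 1 := by
  unfold mO
  have : (monomial (0 : σ →₀ ℕ) (1:k)) = 1 := rfl
  rw [this, map_one]

lemma mK_zero : (mK 0 : FractionRing (MvPolynomial σ k)) = 1 := by
  unfold mK
  have : (monomial (0 : σ →₀ ℕ) (1:k)) = 1 := rfl
  rw [this, map_one]

lemma mO_nsmul (n : ℕ) (J : σ →₀ ℕ) :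
    (mO (n • J) : AlgebraicClosure (FractionRing (MvPolynomial σ k))) = mO J ^ n := by
  induction n with
  | zero => rw [zero_smul, mO_zero, pow_zero]
  | succ n ih => rw [succ_nsmul, mO_add, ih, pow_succ]

lemma mK_nsmul (n : ℕ) (J : σ →₀ ℕ) :
    (mK (n • J) : FractionRing (MvPolynomial σ k)) = mK J ^ n := by
  induction n with
  | zero => rw [zero_smul, mK_zero, pow_zero]
  | succ n ih => rw [succ_nsmul, mK_add, ih, pow_succ]

/-- Membership in the support of a product. -/
lemma mem_support_mul' {f g : MvPolynomial σ k} {m : σ →₀ ℕ} (h : m ∈ (f * g).support) :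
    ∃ a ∈ f.support, ∃ b ∈ g.support, a + b = m := by
  classical
  have := MvPolynomial.support_mul f g h
  rw [Finset.mem_add] at this
  exact this

lemma mem_support_mul_monomial {f : MvPolynomial σ k} {N m : σ →₀ ℕ}
    (h : m ∈ (f * monomial N 1).support) : ∃ a ∈ f.support, a + N = m := by
  obtain ⟨a, ha, b, hb, rfl⟩ := mem_support_mul' h
  have := MvPolynomial.support_monomial_subset hb
  rw [Finset.mem_singleton] at this
  exact ⟨a, ha, by rw [this]⟩

/-- Laurent polynomials whose degree in `x_i` is at most `M`. -/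
def Y (i : σ) (M : ℕ) (z : FractionRing (MvPolynomial σ k)) : Prop :=
  ∃ (N : σ →₀ ℕ) (f : MvPolynomial σ k), z * mK N = algebraMap _ _ f ∧
    ∀ m ∈ f.support, m i ≤ M + N i

lemma Y_zero (i : σ) (M : ℕ) : Y i M (0 : FractionRing (MvPolynomial σ k)) :=
  ⟨0, 0, by simp, by simp⟩

lemma Y_add {i : σ} {M : ℕ} {z z' : FractionRing (MvPolynomial σ k)} (h : Y i M z) (h' : Y i M z') :
    Y i M (z + z') := by
  classical
  obtain ⟨N, f, h1, h2⟩ := h
  obtain ⟨N', f', h1', h2'⟩ := h'
  refine ⟨N + N', f * monomial N' 1 + f' * monomial N 1, ?_, ?_⟩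
  · rw [map_add, map_mul, map_mul, ← h1, ← h1', mK_add]
    change _ = z * mK N * mK N' + z' * mK N' * mK N
    ring
  · intro m hm
    rcases Finset.mem_union.1 (MvPolynomial.support_add hm) with hm | hm
    · obtain ⟨a, ha, rfl⟩ := mem_support_mul_monomial hm
      have := h2 a ha
      simp only [Finsupp.add_apply]
      omega
    · obtain ⟨a, ha, rfl⟩ := mem_support_mul_monomial hm
      have := h2' a ha
      simp only [Finsupp.add_apply]
      omega

lemma Y_mul {i : σ} {M M' : ℕ} {z z' : FractionRing (MvPolynomial σ k)} (h : Y i M z)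
    (h' : Y i M' z') : Y i (M + M') (z * z') := by
  classical
  obtain ⟨N, f, h1, h2⟩ := h
  obtain ⟨N', f', h1', h2'⟩ := h'
  refine ⟨N + N', f * f', ?_, ?_⟩
  · rw [map_mul, ← h1, ← h1', mK_add]
    ring
  · intro m hm
    obtain ⟨a, ha, b, hb, rfl⟩ := mem_support_mul' hm
    have := h2 a ha
    have := h2' b hb
    simp only [Finsupp.add_apply]
    omega

lemma Y_poly (i : σ) (f : MvPolynomial σ k) (M : ℕ) (hM : ∀ m ∈ f.support, m i ≤ M) :
    Y i M (algebraMap _ (FractionRing (MvPolynomial σ k)) f) :=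
  ⟨0, f, by rw [mK_zero, mul_one], fun m hm => by simpa using hM m hm⟩

lemma Y_const (i : σ) (c : k) :
    Y i 0 (algebraMap k (FractionRing (MvPolynomial σ k)) c) := by
  classical
  rw [IsScalarTower.algebraMap_apply k (MvPolynomial σ k) (FractionRing (MvPolynomial σ k))]
  refine Y_poly i _ 0 ?_
  intro m hm
  rw [MvPolynomial.algebraMap_eq] at hm
  have := MvPolynomial.support_monomial_subset (s := (0 : σ →₀ ℕ)) (a := c) hm
  rw [Finset.mem_singleton] at this
  simp [this]

/-- The ring `k[x_j^{±1} (j ≠ i), x_i^{-1}]`. -/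
noncomputable def B (i : σ) : Subalgebra k (FractionRing (MvPolynomial σ k)) where
  carrier := {z | Y i 0 z}
  mul_mem' := fun {a b} ha hb => by
    have := Y_mul (show Y i 0 a from ha) (show Y i 0 b from hb)
    simpa using this
  add_mem' := fun {a b} ha hb => Y_add ha hb
  algebraMap_mem' := fun c => Y_const i c

lemma mem_B {i : σ} {z : FractionRing (MvPolynomial σ k)} : z ∈ (B i : Subalgebra k _) ↔ Y i 0 z :=
  Iff.rfl

/-- Powers of an integral element, after a linear functional: over the polynomial ring. -/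
lemma bound_A (τ : AlgebraicClosure (FractionRing (MvPolynomial σ k)) →ₗ[FractionRing (MvPolynomial σ k)]
    FractionRing (MvPolynomial σ k)) (a : AlgebraicClosure (FractionRing (MvPolynomial σ k)))
    (ha : IsIntegral (MvPolynomial σ k) a) :
    ∃ d : MvPolynomial σ k, d ≠ 0 ∧ ∀ n : ℕ, ∃ g : MvPolynomial σ k,
      algebraMap _ (FractionRing (MvPolynomial σ k)) d * τ (a ^ n) = algebraMap _ _ g := by
  classical
  obtain ⟨P, hP, hPa⟩ := ha
  set r := P.natDegree with hr
  obtain ⟨⟨d, hd⟩, hd'⟩ := IsLocalization.exist_integer_multiples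
    (nonZeroDivisors (MvPolynomial σ k)) (Finset.range r) (fun j => τ (a ^ j))
  refine ⟨d, nonZeroDivisors.ne_zero hd, fun n => ?_⟩
  have hPa' : Polynomial.aeval a P = 0 := hPa
  have e1 : a ^ n = Polynomial.aeval a ((Polynomial.X ^ n : Polynomial (MvPolynomial σ k)) %ₘ P) := by
    rw [Polynomial.aeval_modByMonic_eq_self_of_root hPa']
    simp
  by_cases hr0 : r = 0
  · have : P = 1 := by
      exact (Polynomial.Monic.natDegree_eq_zero hP).1 (hr ▸ hr0)
    rw [this] at hPa'
    simp at hPa'
  have hdeg : ((Polynomial.X ^ n : Polynomial (MvPolynomial σ k)) %ₘ P).natDegree < r := by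
    apply Polynomial.natDegree_modByMonic_lt _ hP
    rintro rfl
    simp at hr
    exact hr0 hr
  rw [Polynomial.aeval_eq_sum_range' hdeg] at e1
  have hc : ∀ j ∈ Finset.range r, ∃ g : MvPolynomial σ k,
      algebraMap _ (FractionRing (MvPolynomial σ k)) d * τ (a ^ j) = algebraMap _ _ g := by
    intro j hj
    obtain ⟨g, hg⟩ := hd' j hj
    refine ⟨g, ?_⟩
    rw [hg]
    change _ = (d • τ (a ^ j) : FractionRing (MvPolynomial σ k))
    rw [Algebra.smul_def]
  choose! g hg using hc
  refine ⟨∑ j ∈ Finset.range r, ((Polynomial.X ^ n : Polynomial (MvPolynomial σ k)) %ₘ P).coeff j * g j, ?_⟩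
  rw [e1, map_sum, Finset.mul_sum, map_sum]
  refine Finset.sum_congr rfl fun j hj => ?_
  rw [map_mul, ← hg j hj, ← algebraMap_smul (FractionRing (MvPolynomial σ k)), map_smul,
    smul_eq_mul]
  ring

/-- Powers of an integral element, after a linear functional: over the ring `B i`. -/
lemma bound_B (i : σ) (τ : AlgebraicClosure (FractionRing (MvPolynomial σ k)) →ₗ[FractionRing (MvPolynomial σ k)]
    FractionRing (MvPolynomial σ k)) (a : AlgebraicClosure (FractionRing (MvPolynomial σ k)))
    (ha : IsIntegral (B i : Subalgebra k (FractionRing (MvPolynomial σ k))) a) :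
    ∃ d : MvPolynomial σ k, d ≠ 0 ∧ ∃ M : ℕ, ∀ n : ℕ, Y i M
      (algebraMap _ (FractionRing (MvPolynomial σ k)) d * τ (a ^ n)) := by
  classical
  obtain ⟨P, hP, hPa⟩ := ha
  set r := P.natDegree with hr
  obtain ⟨⟨d, hd⟩, hd'⟩ := IsLocalization.exist_integer_multiples
    (nonZeroDivisors (MvPolynomial σ k)) (Finset.range r) (fun j => τ (a ^ j))
  have hc : ∀ j ∈ Finset.range r, ∃ g : MvPolynomial σ k,
      algebraMap _ (FractionRing (MvPolynomial σ k)) d * τ (a ^ j) = algebraMap _ _ g := by
    intro j hj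
    obtain ⟨g, hg⟩ := hd' j hj
    refine ⟨g, ?_⟩
    rw [hg]
    change _ = (d • τ (a ^ j) : FractionRing (MvPolynomial σ k))
    rw [Algebra.smul_def]
  choose! g hg using hc
  refine ⟨d, nonZeroDivisors.ne_zero hd, (Finset.range r).sup (fun j => (g j).totalDegree), fun n => ?_⟩
  have hPa' : Polynomial.aeval a P = 0 := hPa
  have e1 : a ^ n = Polynomial.aeval a ((Polynomial.X ^ n : Polynomial (B i : Subalgebra k (FractionRing (MvPolynomial σ k)))) %ₘ P) := by
    rw [Polynomial.aeval_modByMonic_eq_self_of_root hPa']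
    simp
  by_cases hr0 : r = 0
  · have : P = 1 := by
      exact (Polynomial.Monic.natDegree_eq_zero hP).1 (hr ▸ hr0)
    rw [this] at hPa'
    simp at hPa'
  have hdeg : ((Polynomial.X ^ n : Polynomial (B i : Subalgebra k (FractionRing (MvPolynomial σ k)))) %ₘ P).natDegree < r := by
    apply Polynomial.natDegree_modByMonic_lt _ hP
    rintro rfl
    simp at hr
    exact hr0 hr
  rw [Polynomial.aeval_eq_sum_range' hdeg] at e1
  rw [e1, map_sum, Finset.mul_sum]
  refine Finset.sum_induction _ (fun z => Y i _ z) (fun _ _ h h' => Y_add h h') (Y_zero i _) ?_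
  intro j hj
  set c := ((Polynomial.X ^ n : Polynomial (B i : Subalgebra k (FractionRing (MvPolynomial σ k)))) %ₘ P).coeff j with hcdef
  have e2 : c • a ^ j = (c : FractionRing (MvPolynomial σ k)) • a ^ j := rfl
  rw [e2, map_smul, smul_eq_mul, mul_left_comm, hg j hj]
  have h1 : Y i 0 (c : FractionRing (MvPolynomial σ k)) := c.2
  have h2 := Y_mul h1 (Y_poly i (g j) ((Finset.range r).sup (fun j => (g j).totalDegree)) ?_)
  · simpa using h2
  · intro m hm
    refine le_trans ?_ (Finset.le_sup (f := fun j => (g j).totalDegree) hj)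
    refine le_trans ?_ (MvPolynomial.le_totalDegree hm)
    by_cases h : i ∈ m.support
    · exact Finset.single_le_sum (f := fun i => m i) (fun _ _ => Nat.zero_le _) h
    · rw [Finsupp.notMem_support_iff.1 h]
      exact Nat.zero_le _

end

end Pool.Agent.H338R3
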