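import Pool.Agent.H338R3.SolidA

set_option autoImplicit false

/-! Helper file (helper338): for every field `k` of characteristic `p` and every set `σ` of
variables, the polynomial ring `k[σ]` is a direct summand of its absolute integral closure. -/

namespace Pool.Agent.H338R3

open MvPolynomial

section

variable {σ k : Type} [Field k]

/-- Laurent polynomials all of whose monomials have some exponent `≥ q` or `≤ M - q`. -/
def Z (q M : ℕ) (z : FractionRing (MvPolynomial σ k)) : Prop :=
  ∃ (N : σ →₀ ℕ) (f : MvPolynomial σ k), z * mK N = algebraMap _ _ f ∧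
    ∀ m ∈ f.support, ∃ i, N i + q ≤ m i ∨ m i + q ≤ M + N i

lemma Z_zero (q M : ℕ) : Z q M (0 : FractionRing (MvPolynomial σ k)) :=
  ⟨0, 0, by simp, by simp⟩

lemma Z_mono {q M M' : ℕ} (h : M ≤ M') {z : FractionRing (MvPolynomial σ k)} (hz : Z q M z) :
    Z q M' z := by
  obtain ⟨N, f, h1, h2⟩ := hz
  refine ⟨N, f, h1, fun m hm => ?_⟩
  obtain ⟨i, hi⟩ := h2 m hm
  exact ⟨i, by omega⟩

lemma Z_add {q M : ℕ} {z z' : FractionRing (MvPolynomial σ k)} (h : Z q M z) (h' : Z q M z') :
    Z q M (z + z') := by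
  classical
  obtain ⟨N, f, h1, h2⟩ := h
  obtain ⟨N', f', h1', h2'⟩ := h'
  refine ⟨N + N', f * monomial N' 1 + f' * monomial N 1, ?_, ?_⟩
  · rw [map_add, map_mul, map_mul, ← h1, ← h1', mK_add]
    change _ = z * mK N * mK N' + z' * mK N' * mK N
    ring
  · intro m hm
    rcases Finset.mem_union.1 (MvPolynomial.support_add hm) with hm | hm
    · obtain ⟨a, ha, rfl⟩ := mem_support_mul_monomial hm
      obtain ⟨i, hi⟩ := h2 a ha
      refine ⟨i, ?_⟩
      simp only [Finsupp.add_apply]
      omega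
    · obtain ⟨a, ha, rfl⟩ := mem_support_mul_monomial hm
      obtain ⟨i, hi⟩ := h2' a ha
      refine ⟨i, ?_⟩
      simp only [Finsupp.add_apply]
      omega

lemma le_totalDegree' (d : MvPolynomial σ k) {m : σ →₀ ℕ} (hm : m ∈ d.support) (i : σ) :
    m i ≤ d.totalDegree := by
  refine le_trans ?_ (MvPolynomial.le_totalDegree hm)
  by_cases h : i ∈ m.support
  · exact Finset.single_le_sum (f := fun i => m i) (fun _ _ => Nat.zero_le _) h
  · rw [Finsupp.notMem_support_iff.1 h]
    exact Nat.zero_le _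

lemma Z_mul {q M : ℕ} {z : FractionRing (MvPolynomial σ k)} (h : Z q M z) (d : MvPolynomial σ k) :
    Z q (M + d.totalDegree) (algebraMap _ _ d * z) := by
  classical
  obtain ⟨N, f, h1, h2⟩ := h
  refine ⟨N, f * d, ?_, ?_⟩
  · rw [map_mul, ← h1]
    ring
  · intro m hm
    obtain ⟨a, ha, b, hb, rfl⟩ := mem_support_mul' hm
    obtain ⟨i, hi⟩ := h2 a ha
    have := le_totalDegree' d hb i
    refine ⟨i, ?_⟩
    simp only [Finsupp.add_apply]
    omega

/-- The property used to separate `1` from the bad subspace. -/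
def PP (p : ℕ) (τ : AlgebraicClosure (FractionRing (MvPolynomial σ k)) →ₗ[FractionRing (MvPolynomial σ k)]
    FractionRing (MvPolynomial σ k)) (u : AlgebraicClosure (FractionRing (MvPolynomial σ k))) : Prop :=
  ∃ d : MvPolynomial σ k, d ≠ 0 ∧ ∃ M : ℕ, ∀ e : ℕ,
    Z (p ^ e) M (algebraMap _ (FractionRing (MvPolynomial σ k)) d * τ (u ^ (p ^ e)))

variable (p : ℕ) [hp : Fact p.Prime] [CharP k p]
  (τ : AlgebraicClosure (FractionRing (MvPolynomial σ k)) →ₗ[FractionRing (MvPolynomial σ k)]
    FractionRing (MvPolynomial σ k))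

lemma PP_zero : PP p τ (0 : AlgebraicClosure (FractionRing (MvPolynomial σ k))) := by
  refine ⟨1, one_ne_zero, 0, fun e => ?_⟩
  rw [zero_pow (pow_ne_zero _ hp.1.ne_zero), map_zero, mul_zero]
  exact Z_zero _ _

lemma PP_add {u v : AlgebraicClosure (FractionRing (MvPolynomial σ k))} (hu : PP p τ u)
    (hv : PP p τ v) : PP p τ (u + v) := by
  obtain ⟨d, hd, M, h⟩ := hu
  obtain ⟨d', hd', M', h'⟩ := hv
  have : CharP (MvPolynomial σ k) p := inferInstance
  have : CharP (FractionRing (MvPolynomial σ k)) p :=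
    charP_of_injective_algebraMap (IsFractionRing.injective (MvPolynomial σ k) _) p
  have : CharP (AlgebraicClosure (FractionRing (MvPolynomial σ k))) p :=
    charP_of_injective_algebraMap (algebraMap (FractionRing (MvPolynomial σ k)) _).injective p
  have : ExpChar (AlgebraicClosure (FractionRing (MvPolynomial σ k))) p := ExpChar.prime hp.1
  refine ⟨d * d', mul_ne_zero hd hd', (M + d'.totalDegree) + (M' + d.totalDegree), fun e => ?_⟩
  rw [add_pow_expChar_pow, map_add, mul_add, map_mul]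
  refine Z_add ?_ ?_
  · have := Z_mul (h e) d'
    rw [← mul_assoc, mul_comm (algebraMap _ _ d')] at this
    exact Z_mono (by omega) this
  · have := Z_mul (h' e) d
    rw [← mul_assoc] at this
    exact Z_mono (by omega) this

lemma PP_smul (c : k) {u : AlgebraicClosure (FractionRing (MvPolynomial σ k))} (hu : PP p τ u) :
    PP p τ (c • u) := by
  obtain ⟨d, hd, M, h⟩ := hu
  refine ⟨d, hd, M, fun e => ?_⟩
  have e1 : (c • u) ^ (p ^ e) = (algebraMap (MvPolynomial σ k) (FractionRing (MvPolynomial σ k)) (C (c ^ (p ^ e)))) • u ^ (p ^ e) := by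
    rw [smul_pow, Algebra.smul_def, Algebra.smul_def,
      IsScalarTower.algebraMap_apply k (MvPolynomial σ k) (AlgebraicClosure (FractionRing (MvPolynomial σ k))),
      ← IsScalarTower.algebraMap_apply (MvPolynomial σ k) (FractionRing (MvPolynomial σ k))
        (AlgebraicClosure (FractionRing (MvPolynomial σ k)))]
    rfl
  rw [e1, map_smul, smul_eq_mul, mul_left_comm]
  have := Z_mul (h e) (C (c ^ (p ^ e)))
  rw [totalDegree_C, add_zero] at this
  exact this

lemma PP_G1 (i : σ) (J : σ →₀ ℕ) (hJ : J i = 0)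
    (a u : AlgebraicClosure (FractionRing (MvPolynomial σ k))) (ha : IsIntegral (MvPolynomial σ k) a)
    (h : mO J * u = mO (Finsupp.single i 1) * a) : PP p τ u := by
  obtain ⟨d, hd, hg⟩ := bound_A τ a ha
  refine ⟨d, hd, 0, fun e => ?_⟩
  obtain ⟨g, hg⟩ := hg (p ^ e)
  refine ⟨(p ^ e) • J, g * monomial ((p ^ e) • Finsupp.single i 1) 1, ?_, ?_⟩
  · have h1 : (mK ((p ^ e) • J) : FractionRing (MvPolynomial σ k)) • u ^ (p ^ e)
        = (mK ((p ^ e) • Finsupp.single i 1) : FractionRing (MvPolynomial σ k)) • a ^ (p ^ e) := by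
      rw [Algebra.smul_def, Algebra.smul_def, ← mO_eq, ← mO_eq, mO_nsmul, mO_nsmul, ← mul_pow,
        ← mul_pow, h]
    have h2 := congrArg τ h1
    rw [map_smul, map_smul, smul_eq_mul, smul_eq_mul] at h2
    rw [map_mul, ← hg]
    change _ = _ * mK ((p ^ e) • Finsupp.single i 1)
    calc _ = algebraMap _ _ d * (mK ((p ^ e) • J) * τ (u ^ (p ^ e))) := by ring
      _ = _ := by rw [h2]; ring
  · intro m hm
    obtain ⟨s, hs, rfl⟩ := mem_support_mul_monomial hm
    refine ⟨i, Or.inl ?_⟩
    simp [hJ]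

lemma PP_G2 (i : σ) (u : AlgebraicClosure (FractionRing (MvPolynomial σ k)))
    (ha : IsIntegral (B i : Subalgebra k (FractionRing (MvPolynomial σ k)))
      (mO (Finsupp.single i 1) * u)) : PP p τ u := by
  obtain ⟨d, hd, M, hM⟩ := bound_B i τ _ ha
  refine ⟨d, hd, M, fun e => ?_⟩
  obtain ⟨N, f, h1, h2⟩ := hM (p ^ e)
  refine ⟨N + (p ^ e) • Finsupp.single i 1, f, ?_, ?_⟩
  · rw [← h1, mul_pow, ← mO_nsmul, mO_eq]
    rw [← Algebra.smul_def (mK ((p ^ e) • Finsupp.single i 1) : FractionRing (MvPolynomial σ k))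
      (u ^ (p ^ e)), map_smul, smul_eq_mul, mK_add]
    ring
  · intro m hm
    refine ⟨i, Or.inr ?_⟩
    have := h2 m hm
    simp
    omega

/-- The bad subspace. -/
def G : Set (AlgebraicClosure (FractionRing (MvPolynomial σ k))) :=
  {u | (∃ i : σ, ∃ J : σ →₀ ℕ, J i = 0 ∧ ∃ a, IsIntegral (MvPolynomial σ k) a ∧
      mO J * u = mO (Finsupp.single i 1) * a) ∨
    (∃ i : σ, IsIntegral (B i : Subalgebra k (FractionRing (MvPolynomial σ k)))
      (mO (Finsupp.single i 1) * u))}

include p hp in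
lemma one_notMem : (1 : AlgebraicClosure (FractionRing (MvPolynomial σ k))) ∉
    Submodule.span k (G : Set (AlgebraicClosure (FractionRing (MvPolynomial σ k)))) := by
  intro h1
  obtain ⟨τ, hτ⟩ : ∃ τ : AlgebraicClosure (FractionRing (MvPolynomial σ k)) →ₗ[FractionRing (MvPolynomial σ k)]
    FractionRing (MvPolynomial σ k), τ 1 = 1 := by
    have h0 : (1 : AlgebraicClosure (FractionRing (MvPolynomial σ k))) ∉
        (⊥ : Submodule (FractionRing (MvPolynomial σ k)) (AlgebraicClosure (FractionRing (MvPolynomial σ k)))) := by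
      simp
    obtain ⟨l, hl0, -⟩ := Submodule.exists_le_ker_of_notMem h0
    exact ⟨(l 1)⁻¹ • l, by simp [hl0]⟩
  have key : ∀ u ∈ Submodule.span k (G : Set (AlgebraicClosure (FractionRing (MvPolynomial σ k)))),
      PP p τ u := by
    intro u hu
    induction hu using Submodule.span_induction with
    | mem u hu =>
      rcases hu with ⟨i, J, hJ, a, ha, h⟩ | ⟨i, h⟩
      · exact PP_G1 p τ i J hJ a u ha h
      · exact PP_G2 p τ i u h
    | zero => exact PP_zero p τ
    | add u v _ _ hu hv => exact PP_add p τ hu hv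
    | smul c u _ hu => exact PP_smul p τ c hu
  obtain ⟨d, hd, M, h⟩ := key 1 h1
  obtain ⟨N, f, h2, h3⟩ := h (M + d.totalDegree)
  have hq : M + d.totalDegree < p ^ (M + d.totalDegree) := Nat.lt_pow_self hp.1.one_lt
  rw [one_pow, hτ, mul_one] at h2
  have h4 : d * monomial N 1 = f := by
    apply IsFractionRing.injective (MvPolynomial σ k) (FractionRing (MvPolynomial σ k))
    rw [← h2, map_mul]
    rfl
  obtain ⟨m, hm⟩ := Finset.nonempty_iff_ne_empty.2 (mt MvPolynomial.support_eq_empty.1 hd)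
  have h5 : m + N ∈ f.support := by
    rw [← h4, MvPolynomial.mem_support_iff, MvPolynomial.coeff_mul_monomial, mul_one]
    exact MvPolynomial.mem_support_iff.1 hm
  obtain ⟨i, hi⟩ := h3 _ h5
  have := le_totalDegree' d hm i
  simp only [Finsupp.add_apply] at hi
  omega

end

end Pool.Agent.H338R3
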