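import Pool.Agent.H338R3.SolidB

set_option autoImplicit false

/-! Helper file (helper338): for every field `k` of characteristic `p` and every set `σ` of
variables, the polynomial ring `k[σ]` is a direct summand of its absolute integral closure. -/

namespace Pool.Agent.H338R3

open MvPolynomial

section

variable {σ k : Type} [Field k]

/-- The vector bounding the poles at infinity of an integral element. -/
lemma exists_bound (f : AlgebraicClosure (FractionRing (MvPolynomial σ k)))
    (hf : IsIntegral (MvPolynomial σ k) f) :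
    ∃ m : σ →₀ ℕ, ∀ i : σ, IsIntegral (B i : Subalgebra k (FractionRing (MvPolynomial σ k)))
      ((mO (Finsupp.single i (m i)))⁻¹ * f) := by
  classical
  obtain ⟨P, hP, hPf⟩ := hf
  refine ⟨∑ j ∈ P.support, ∑ s ∈ (P.coeff j).support, s, fun i => ?_⟩
  set m : σ →₀ ℕ := ∑ j ∈ P.support, ∑ s ∈ (P.coeff j).support, s with hm
  have hmi : ∀ j, ∀ s ∈ (P.coeff j).support, s i ≤ m i := by
    intro j s hs
    have hj : j ∈ P.support := by
      rw [Polynomial.mem_support_iff]
      rintro h
      rw [h] at hs
      simp at hs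
    have h1 : s ≤ ∑ s ∈ (P.coeff j).support, s :=
      Finset.single_le_sum (f := fun s : σ →₀ ℕ => s) (fun _ _ => zero_le) hs
    have h2 : (∑ s ∈ (P.coeff j).support, s) ≤ m :=
      Finset.single_le_sum (f := fun j => ∑ s ∈ (P.coeff j).support, s) (fun _ _ => zero_le) hj
    exact (h1.trans h2) i
  set s : FractionRing (MvPolynomial σ k) := (mK (Finsupp.single i (m i)))⁻¹ with hs
  set Q : Polynomial (FractionRing (MvPolynomial σ k)) :=
    (P.map (algebraMap (MvPolynomial σ k) (FractionRing (MvPolynomial σ k)))).scaleRoots s with hQ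
  have hQm : Q.Monic := (Polynomial.monic_scaleRoots_iff s).2 (hP.map _)
  have hQ0 : Polynomial.aeval (algebraMap (FractionRing (MvPolynomial σ k))
      (AlgebraicClosure (FractionRing (MvPolynomial σ k))) s * f) Q = 0 := by
    apply Polynomial.scaleRoots_aeval_eq_zero
    rw [Polynomial.aeval_map_algebraMap]
    exact hPf
  have hl : Q ∈ Polynomial.lifts (algebraMap (B i : Subalgebra k (FractionRing (MvPolynomial σ k)))
      (FractionRing (MvPolynomial σ k))) := by
    rw [Polynomial.lifts_iff_coeff_lifts]
    intro j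
    have hmem : Q.coeff j ∈ (B i : Subalgebra k (FractionRing (MvPolynomial σ k))) := by
      rw [hQ, Polynomial.coeff_scaleRoots, Polynomial.coeff_map,
        Polynomial.natDegree_map_eq_of_injective
          (IsFractionRing.injective (MvPolynomial σ k) (FractionRing (MvPolynomial σ k)))]
      rcases lt_trichotomy j P.natDegree with h | h | h
      · rw [mem_B]
        refine ⟨(P.natDegree - j) • Finsupp.single i (m i), P.coeff j, ?_, ?_⟩
        · rw [hs, mK_nsmul, inv_pow, inv_mul_cancel_right₀]
          exact pow_ne_zero _ (mK_ne _)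
        · intro t ht
          have h1 := hmi j t ht
          have h2 : 1 ≤ P.natDegree - j := by omega
          simp
          calc t i ≤ 1 * m i := by omega
            _ ≤ (P.natDegree - j) * m i := Nat.mul_le_mul_right _ h2
      · rw [h, Nat.sub_self, pow_zero, mul_one]
        have : P.coeff P.natDegree = 1 := hP
        rw [this, map_one]
        exact Subalgebra.one_mem _
      · rw [Polynomial.coeff_eq_zero_of_natDegree_lt h, map_zero, zero_mul]
        exact Subalgebra.zero_mem _
    exact ⟨⟨_, hmem⟩, rfl⟩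
  obtain ⟨q, hq, -, hqm⟩ := Polynomial.lifts_and_natDegree_eq_and_monic hl hQm
  refine ⟨q, hqm, ?_⟩
  have e1 : (mO (Finsupp.single i (m i)))⁻¹ * f = algebraMap (FractionRing (MvPolynomial σ k))
      (AlgebraicClosure (FractionRing (MvPolynomial σ k))) s * f := by
    rw [hs, map_inv₀, mO_eq]
  rw [e1, ← Polynomial.aeval_def, ← hQ0, ← hq, Polynomial.aeval_map_algebraMap]

/-- The absolute integral closure. -/
abbrev Aplus (σ k : Type) [Field k] :=
  ↥(integralClosure (MvPolynomial σ k) (AlgebraicClosure (FractionRing (MvPolynomial σ k))))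

variable (σ k) in
/-- The splitting `k[σ]⁺ → k[σ]`, for every field `k` of characteristic `p` and every `σ`. -/
theorem split_poly (p : ℕ) [hp : Fact p.Prime] [CharP k p] :
    ∃ f : Aplus σ k →ₗ[MvPolynomial σ k] MvPolynomial σ k, f 1 = 1 := by
  classical
  obtain ⟨l, hl0, hlU⟩ := Submodule.exists_le_ker_of_notMem (one_notMem (σ := σ) (k := k) p)
  set c : k := l 1 with hc
  have hG1 : ∀ (i : σ) (J : σ →₀ ℕ), J i = 0 → ∀ a u, IsIntegral (MvPolynomial σ k) a →
      mO J * u = mO (Finsupp.single i 1) * a → l u = 0 := fun i J hJ a u ha h =>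
    hlU (Submodule.subset_span (Or.inl ⟨i, J, hJ, a, ha, h⟩))
  have hG2 : ∀ (i : σ) u, IsIntegral (B i : Subalgebra k (FractionRing (MvPolynomial σ k)))
      (mO (Finsupp.single i 1) * u) → l u = 0 := fun i u h =>
    hlU (Submodule.subset_span (Or.inr ⟨i, h⟩))
  have hfin : ∀ f : AlgebraicClosure (FractionRing (MvPolynomial σ k)), IsIntegral (MvPolynomial σ k) f →
      ∃ m : σ →₀ ℕ, ∀ J, ¬ J ≤ m → l ((mO J)⁻¹ * f) = 0 := by
    intro f hf
    obtain ⟨m, hm⟩ := exists_bound f hf
    refine ⟨m, fun J hJ => ?_⟩
    obtain ⟨i, hi⟩ : ∃ i, m i < J i := by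
      by_contra hcon
      push Not at hcon
      exact hJ hcon
    apply hG2 i
    have e1 : mO (Finsupp.single i 1) * ((mO J)⁻¹ * f) =
        algebraMap (FractionRing (MvPolynomial σ k)) (AlgebraicClosure (FractionRing (MvPolynomial σ k)))
          (mK (Finsupp.single i (m i + 1)) * (mK J)⁻¹) * ((mO (Finsupp.single i (m i)))⁻¹ * f) := by
      rw [map_mul, map_inv₀, ← mO_eq, ← mO_eq, Finsupp.single_add, mO_add]
      have := mO_ne (k := k) (Finsupp.single i (m i))
      field_simp
    rw [e1]
    refine IsIntegral.mul ?_ (hm i)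
    have hmem : mK (Finsupp.single i (m i + 1)) * (mK J)⁻¹ ∈
        (B i : Subalgebra k (FractionRing (MvPolynomial σ k))) := by
      rw [mem_B]
      refine ⟨J, monomial (Finsupp.single i (m i + 1)) 1, ?_, ?_⟩
      · rw [inv_mul_cancel_right₀ (mK_ne _)]
        rfl
      · intro t ht
        have := MvPolynomial.support_monomial_subset ht
        rw [Finset.mem_singleton] at this
        rw [this]
        simp
        omega
    exact (isIntegral_algebraMap (R := (B i : Subalgebra k (FractionRing (MvPolynomial σ k))))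
      (A := AlgebraicClosure (FractionRing (MvPolynomial σ k))) (x := ⟨_, hmem⟩))
  choose m hm using hfin
  let g : Aplus σ k → MvPolynomial σ k := fun f =>
    ∑ J ∈ Finset.Iic (m f.1 f.2), monomial J (c⁻¹ * l ((mO J)⁻¹ * f.1))
  have hg : ∀ (f : Aplus σ k) (J : σ →₀ ℕ),
      (g f).coeff J = c⁻¹ * l ((mO J)⁻¹ * f.1) := by
    intro f J
    simp only [g, coeff_sum, coeff_monomial, Finset.sum_ite_eq', Finset.mem_Iic]
    split_ifs with h
    · rfl
    · rw [hm f.1 f.2 J h, mul_zero]
  have hadd : ∀ a b, g (a + b) = g a + g b := by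
    intro a b
    ext J
    rw [coeff_add, hg, hg, hg]
    have : (mO J)⁻¹ * (a + b : Aplus σ k).1
      = (mO J)⁻¹ * a.1 + (mO J)⁻¹ * b.1 := by
      rw [← mul_add]; rfl
    rw [this, map_add, mul_add]
  have hC : ∀ (r : k) a, g ((C r : MvPolynomial σ k) • a) = C r * g a := by
    intro r a
    ext J
    rw [coeff_C_mul, hg, hg]
    have : (mO J)⁻¹ * ((C r : MvPolynomial σ k) • a : Aplus σ k).1
      = r • ((mO J)⁻¹ * a.1) := by
      have h1 : ((C r : MvPolynomial σ k) • a : Aplus σ k).1 = (C r : MvPolynomial σ k) • a.1 := rfl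
      rw [h1, Algebra.smul_def (C r : MvPolynomial σ k) a.1, Algebra.smul_def r,
        IsScalarTower.algebraMap_apply k (MvPolynomial σ k)
          (AlgebraicClosure (FractionRing (MvPolynomial σ k)))]
      have : algebraMap k (MvPolynomial σ k) r = C r := rfl
      rw [this]
      ring
    rw [this, map_smul, smul_eq_mul]
    ring
  have hX : ∀ (i : σ) a, g ((X i : MvPolynomial σ k) • a) = g a * X i := by
    intro i a
    ext J
    have h1 : ((X i : MvPolynomial σ k) • a : Aplus σ k).1 = mO (Finsupp.single i 1) * a.1 := by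
      have h1 : ((X i : MvPolynomial σ k) • a : Aplus σ k).1 = (X i : MvPolynomial σ k) • a.1 := rfl
      rw [h1, Algebra.smul_def]
      rfl
    rw [hg, h1, coeff_mul_X']
    split_ifs with hi
    · rw [hg]
      have hJ : J = (J - Finsupp.single i 1) + Finsupp.single i 1 := by
        refine (tsub_add_cancel_of_le ?_).symm
        rw [Finsupp.single_le_iff]
        have := Finsupp.mem_support_iff.1 hi
        omega
      have : (mO J)⁻¹ * (mO (Finsupp.single i 1) * a.1) = (mO (J - Finsupp.single i 1))⁻¹ * a.1 := by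
        conv_lhs => rw [hJ, mO_add]
        have h2 := mO_ne (k := k) (Finsupp.single i 1)
        have h3 := mO_ne (k := k) (J - Finsupp.single i 1)
        field_simp
      rw [this]
    · rw [hG1 i J (Finsupp.notMem_support_iff.1 hi) a.1 _ a.2, mul_zero]
      rw [mul_inv_cancel_left₀ (mO_ne J)]
  have hsm : ∀ (q : MvPolynomial σ k) a, g (q • a) = q * g a := by
    intro q
    induction q using MvPolynomial.induction_on with
    | C r => exact hC r
    | add q1 q2 h1 h2 => intro a; rw [add_smul, hadd, h1, h2, add_mul]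
    | mul_X q i h =>
      intro a
      rw [mul_smul, h, hX]
      ring
  refine ⟨{ toFun := g, map_add' := hadd, map_smul' := hsm }, ?_⟩
  show g 1 = 1
  ext J
  rw [hg, coeff_one]
  have h1 : ((1 : Aplus σ k).1 : AlgebraicClosure (FractionRing (MvPolynomial σ k))) = 1 := rfl
  rw [h1, mul_one]
  split_ifs with hJ
  · rw [← hJ, mO_zero, inv_one, ← hc, inv_mul_cancel₀ hl0]
  · obtain ⟨i, hi⟩ : ∃ i, J i ≠ 0 := by
      by_contra hcon
      push Not at hcon
      exact hJ (Finsupp.ext fun i => (hcon i).symm)
    rw [hG2 i, mul_zero]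
    have hmem : mK (Finsupp.single i 1) * (mK J)⁻¹ ∈
        (B i : Subalgebra k (FractionRing (MvPolynomial σ k))) := by
      rw [mem_B]
      refine ⟨J, monomial (Finsupp.single i 1) 1, ?_, ?_⟩
      · rw [inv_mul_cancel_right₀ (mK_ne _)]
        rfl
      · intro t ht
        have := MvPolynomial.support_monomial_subset ht
        rw [Finset.mem_singleton] at this
        rw [this]
        simp
        omega
    have e1 : mO (Finsupp.single i 1) * (mO J)⁻¹ =
        algebraMap (FractionRing (MvPolynomial σ k)) (AlgebraicClosure (FractionRing (MvPolynomial σ k)))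
          (mK (Finsupp.single i 1) * (mK J)⁻¹) := by
      rw [map_mul, map_inv₀, ← mO_eq, ← mO_eq]
    rw [e1]
    exact (isIntegral_algebraMap (R := (B i : Subalgebra k (FractionRing (MvPolynomial σ k))))
      (A := AlgebraicClosure (FractionRing (MvPolynomial σ k))) (x := ⟨_, hmem⟩))

end

end Pool.Agent.H338R3
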