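import Mathlib

/-!
The space of subgroups of a group, with the topology of pointwise convergence of indicator
functions, boomerang subgroups and invariant random subgroups.
-/

set_option autoImplicit false

universe u

namespace Pool.Agent.H338R3

open Filter MeasureTheory Topology

variable {G : Type u} [Group G]

open Classical in
/-- The space of subgroups, as a subspace of the product of two-point discrete spaces indexed by
the group. -/
noncomputable instance subTopology (G : Type u) [Group G] : TopologicalSpace (Subgroup G) :=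
  TopologicalSpace.induced (fun (H : Subgroup G) (g : G) => (decide (g ∈ H) : Bool)) inferInstance

/-- The Borel sets of the space of subgroups. -/
noncomputable instance subMeasurable (G : Type u) [Group G] : MeasurableSpace (Subgroup G) :=
  borel (Subgroup G)

instance (G : Type u) [Group G] : BorelSpace (Subgroup G) := ⟨rfl⟩

/-- Conjugation of a subgroup by an element: the subgroup of all `g h g⁻¹` with `h` in `H`. -/
def cj (g : G) (H : Subgroup G) : Subgroup G := H.map (MulAut.conj g).toMonoidHom

/-- A subgroup `H` is a boomerang subgroup if for every `g` there are exponents `n k` tending to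
infinity such that the conjugates of `H` by `g ^ (n k)` tend to `H`. -/
def IsBoomerang (H : Subgroup G) : Prop :=
  ∀ g : G, ∃ n : ℕ → ℕ, Tendsto n atTop atTop ∧ Tendsto (fun k => cj (g ^ n k) H) atTop (𝓝 H)

/-- An invariant random subgroup: a Borel probability measure on the space of subgroups that is
invariant under conjugation. -/
structure IsIRS (μ : Measure (Subgroup G)) : Prop where
  prob : IsProbabilityMeasure μ
  inv : ∀ g : G, μ.map (cj g) = μ

/-- The closure of the set of conjugates of a subgroup. -/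
def orbitClosure (H : Subgroup G) : Set (Subgroup G) :=
  closure (Set.range fun g : G => cj g H)

lemma mem_cj (g x : G) (H : Subgroup G) : x ∈ cj g H ↔ g⁻¹ * x * g ∈ H := by
  rw [cj, Subgroup.mem_map]
  constructor
  · rintro ⟨y, hy, rfl⟩
    simpa [mul_assoc] using hy
  · intro h
    exact ⟨_, h, by simp [mul_assoc]⟩

open Classical in
lemma continuous_ind (g : G) : Continuous (fun H : Subgroup G => (decide (g ∈ H) : Bool)) := by
  have h1 : Continuous (fun (H : Subgroup G) (g : G) => (decide (g ∈ H) : Bool)) :=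
    continuous_induced_dom
  exact (continuous_pi_iff.mp h1) g

lemma isClopen_mem (g : G) : IsClopen {H : Subgroup G | g ∈ H} := by
  classical
  have h1 := continuous_ind g
  have h2 : {H : Subgroup G | g ∈ H} = (fun H : Subgroup G => (decide (g ∈ H) : Bool)) ⁻¹' {true} := by
    ext H; simp
  rw [h2]
  exact (isClopen_discrete {true}).preimage h1

lemma continuous_cj (g : G) : Continuous (cj g : Subgroup G → Subgroup G) := by
  classical
  refine continuous_induced_rng.mpr ?_
  refine continuous_pi fun x => ?_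
  have h1 := continuous_ind (g⁻¹ * x * g)
  refine h1.congr fun H => ?_
  simp [mem_cj]

lemma tendsto_sub {f : ℕ → Subgroup G} {H : Subgroup G}
    (h : ∀ x : G, ∀ᶠ k in atTop, (x ∈ f k ↔ x ∈ H)) : Tendsto f atTop (𝓝 H) := by
  classical
  rw [nhds_induced, tendsto_comap_iff, tendsto_pi_nhds]
  intro x
  rw [nhds_discrete, tendsto_pure]
  filter_upwards [h x] with k hk
  simp [hk]

/-- The mass transport obstruction. -/
theorem no_irs {ι : Type} [Fintype ι] (H : Subgroup G) (A : ι → Set (Subgroup G))
    (hA : ∀ s, IsClopen (A s)) (hdisj : Pairwise (fun s t => Disjoint (A s) (A t)))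
    (inv : ι ≃ ι) (w : ι → G) (a : G)
    (h2 : ∀ g : G, cj g H ∈ ⋃ s, A s →
      ∃ s t : ι, s ≠ t ∧ cj (w s) (cj g H) ∈ A (inv s) ∧ cj (w t) (cj g H) ∈ A (inv t))
    (h3 : ∀ g : G, cj g H ∈ ⋃ s, A s ∨ cj a (cj g H) ∈ ⋃ s, A s) :
    ¬ ∃ μ : Measure (Subgroup G), IsIRS μ ∧ μ (orbitClosure H) = 1 := by
  classical
  rintro ⟨μ, ⟨hprob, hinv⟩, hμ⟩
  set Z : Set (Subgroup G) := ⋃ s, A s with hZ
  set C : ι → Set (Subgroup G) := fun s => (cj (w s)) ⁻¹' A (inv s) with hC
  have hZc : IsClopen Z := isClopen_iUnion_of_finite hA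
  have hCc : ∀ s, IsClopen (C s) := fun s => (hA (inv s)).preimage (continuous_cj (w s))
  have hCm : ∀ s, MeasurableSet (C s) := fun s => (hCc s).isOpen.measurableSet
  have hAm : ∀ s, MeasurableSet (A s) := fun s => (hA s).isOpen.measurableSet
  have hpre : ∀ (g : G) (B : Set (Subgroup G)), MeasurableSet B → μ ((cj g) ⁻¹' B) = μ B := by
    intro g B hB
    rw [← Measure.map_apply (continuous_cj g).measurable hB, hinv g]
  -- the closed sets
  set E1 : Set (Subgroup G) := Zᶜ ∪ ⋃ p : ι × ι, ({_K : Subgroup G | p.1 ≠ p.2} ∩ (C p.1 ∩ C p.2))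
    with hE1
  have hE1c : IsClosed E1 := by
    refine hZc.compl.isClosed.union (isClosed_iUnion_of_finite fun p => ?_)
    refine IsClosed.inter ?_ ((hCc _).isClosed.inter (hCc _).isClosed)
    by_cases hp : p.1 ≠ p.2
    · simp [hp]
    · simp only [hp]
      exact isClosed_empty
  set E2 : Set (Subgroup G) := Z ∪ (cj a) ⁻¹' Z with hE2
  have hE2c : IsClosed E2 := hZc.isClosed.union (hZc.preimage (continuous_cj a)).isClosed
  have hsub1 : orbitClosure H ⊆ E1 := by
    apply closure_minimal _ hE1c
    rintro _ ⟨g, rfl⟩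
    by_cases hg : cj g H ∈ Z
    · obtain ⟨s, t, hst, hs, ht⟩ := h2 g hg
      exact Or.inr (Set.mem_iUnion.mpr ⟨(s, t), hst, hs, ht⟩)
    · exact Or.inl hg
  have hsub2 : orbitClosure H ⊆ E2 := by
    apply closure_minimal _ hE2c
    rintro _ ⟨g, rfl⟩
    exact h3 g
  have hE1μ : μ E1 = 1 := le_antisymm prob_le_one (hμ ▸ measure_mono hsub1)
  have hE2μ : μ E2 = 1 := le_antisymm prob_le_one (hμ ▸ measure_mono hsub2)
  have hae : ∀ᵐ K ∂μ, K ∈ E1 := by
    rw [ae_iff]
    have : {K | K ∉ E1} = E1ᶜ := rfl
    rw [this, prob_compl_eq_zero_iff hE1c.measurableSet]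
    exact hE1μ
  have hsum : ∑ s, μ (C s) = μ Z := by
    have e1 : ∀ s, μ (C s) = μ (A (inv s)) := fun s => hpre _ _ (hAm _)
    rw [Finset.sum_congr rfl (fun s _ => e1 s), Equiv.sum_comp inv (fun s => μ (A s)), hZ,
      measure_iUnion hdisj hAm, tsum_fintype]
  have hint : 2 * μ Z ≤ ∑ s, μ (C s) := by
    have e1 : ∑ s, μ (C s) = ∫⁻ K, ∑ s, (C s).indicator 1 K ∂μ := by
      rw [lintegral_finsetSum]
      · exact Finset.sum_congr rfl fun s _ => (lintegral_indicator_one (hCm s)).symm
      · exact fun s _ => measurable_one.indicator (hCm s)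
    have e2 : 2 * μ Z = ∫⁻ K, Z.indicator (fun _ => 2) K ∂μ := by
      rw [lintegral_indicator hZc.isOpen.measurableSet]
      simp
    rw [e1, e2]
    apply lintegral_mono_ae
    filter_upwards [hae] with K hK
    by_cases hKZ : K ∈ Z
    · rcases hK with hK | hK
      · exact absurd hKZ hK
      · obtain ⟨⟨s, t⟩, hst, hs, ht⟩ := Set.mem_iUnion.mp hK
        have hst' : s ≠ t := hst
        rw [Set.indicator_of_mem hKZ]
        calc (2 : ENNReal) = ∑ r ∈ ({s, t} : Finset ι), (C r).indicator 1 K := by
              rw [Finset.sum_pair hst', Set.indicator_of_mem hs, Set.indicator_of_mem ht]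
              norm_num
          _ ≤ ∑ r, (C r).indicator 1 K :=
              Finset.sum_le_sum_of_subset (Finset.subset_univ _)
    · rw [Set.indicator_of_notMem hKZ]
      exact zero_le
  have hZ0 : μ Z = 0 := by
    rw [hsum] at hint
    have hfin : μ Z ≠ ⊤ := measure_ne_top μ Z
    by_contra h0
    have h4 : μ Z < 2 * μ Z := by
      rw [two_mul]
      exact ENNReal.lt_add_right hfin h0
    exact absurd hint (not_le.mpr h4)
  have : μ E2 ≤ 0 := by
    calc μ E2 ≤ μ Z + μ ((cj a) ⁻¹' Z) := measure_union_le _ _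
      _ = 0 := by rw [hpre a Z hZc.isOpen.measurableSet, hZ0, add_zero]
  rw [hE2μ] at this
  exact absurd this (by norm_num)

end Pool.Agent.H338R3
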