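import Mathlib

set_option autoImplicit false

/-! Helper file (helper338): from a splitting of `A → A⁺` and a retraction `A → D` to a splitting of
`W⁻¹D → (W⁻¹D)⁺`. -/

namespace Pool.Agent.H338R3

section transfer

variable {D A : Type} [CommRing D] [IsDomain D] [CommRing A] [IsDomain A] [Algebra D A]
  (R : Type) [CommRing R] [IsDomain R] [Algebra D R]

open scoped nonZeroDivisors

/-- If `h : A⁺ → D` is `D`-linear with `h 1 = 1`, and `W` is a set of nonzero elements of `D`, then
`W⁻¹D → (W⁻¹D)⁺` splits. -/
theorem transfer (hinj : Function.Injective (algebraMap D A)) (W : Submonoid D) (hW : W ≤ D⁰)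
    [IsLocalization W R]
    (h : ↥(integralClosure A (AlgebraicClosure (FractionRing A))) →+ D)
    (hlin : ∀ (d : D) x, h (algebraMap D A d • x) = d * h x) (h1 : h 1 = 1) :
    ∃ f : ↥(integralClosure R (AlgebraicClosure (FractionRing R))) →ₗ[R] R, f 1 = 1 := by
  classical
  -- the map from `D` to `Ω`
  let gD : D →+* AlgebraicClosure (FractionRing A) :=
    (algebraMap A (AlgebraicClosure (FractionRing A))).comp (algebraMap D A)
  have hAinj : Function.Injective (algebraMap A (AlgebraicClosure (FractionRing A))) := by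
    rw [IsScalarTower.algebraMap_eq A (FractionRing A) (AlgebraicClosure (FractionRing A))]
    exact (algebraMap (FractionRing A) _).injective.comp (IsFractionRing.injective _ _)
  have hgD : Function.Injective gD := hAinj.comp hinj
  have hunit : ∀ w : W, IsUnit (gD w) := by
    intro w
    apply IsUnit.mk0
    intro h0
    have : (w : D) = 0 := hgD (by rw [h0, map_zero])
    exact nonZeroDivisors.ne_zero (hW w.2) this
  let gR : R →+* AlgebraicClosure (FractionRing A) := IsLocalization.lift hunit
  have hgRD : ∀ d : D, gR (algebraMap D R d) = gD d := fun d => IsLocalization.lift_eq hunit d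
  have hgR : Function.Injective gR := by
    rw [injective_iff_map_eq_zero]
    intro r hr
    obtain ⟨d, w, rfl⟩ := IsLocalization.exists_mk'_eq W r
    have h2 : gR (algebraMap D R d) = 0 := by
      rw [← IsLocalization.mk'_spec R d w, map_mul, hr, zero_mul]
    rw [hgRD] at h2
    have h3 : d = 0 := hgD (by rw [h2, map_zero])
    rw [h3, IsLocalization.mk'_zero]
  let gK : FractionRing R →+* AlgebraicClosure (FractionRing A) := IsFractionRing.lift hgR
  let : Algebra (FractionRing R) (AlgebraicClosure (FractionRing A)) := gK.toAlgebra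
  let ι : AlgebraicClosure (FractionRing R) →ₐ[FractionRing R] AlgebraicClosure (FractionRing A) :=
    IsAlgClosed.lift
  have hι : ∀ r : R, ι (algebraMap R (AlgebraicClosure (FractionRing R)) r) = gR r := by
    intro r
    rw [IsScalarTower.algebraMap_apply R (FractionRing R) (AlgebraicClosure (FractionRing R)),
      AlgHom.commutes]
    exact IsFractionRing.lift_algebraMap hgR r
  have hιD : ∀ d : D, ι (algebraMap D (AlgebraicClosure (FractionRing R)) d) = gD d := by
    intro d
    rw [IsScalarTower.algebraMap_apply D R (AlgebraicClosure (FractionRing R)), hι, hgRD]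
  -- integrality
  have hint : ∀ x : AlgebraicClosure (FractionRing R), IsIntegral R x →
      ∃ w : W, IsIntegral A (gD w * ι x) := by
    intro x hx
    obtain ⟨w, hw⟩ := IsIntegral.exists_multiple_integral_of_isLocalization W x hx
    refine ⟨w, ?_⟩
    have h2 := IsIntegral.map_of_comp_eq (algebraMap D A) ι.toRingHom (by
      ext d
      exact (hιD d).symm) hw
    have h3 : ι.toRingHom (w • x) = gD w * ι x := by
      rw [Submonoid.smul_def, Algebra.smul_def]
      change ι (_ * _) = _
      rw [map_mul, hιD]
    rwa [h3] at h2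
  choose w hw using hint
  let F : ↥(integralClosure R (AlgebraicClosure (FractionRing R))) → R := fun x =>
    IsLocalization.mk' R (h ⟨gD (w x.1 x.2) * ι x.1, hw x.1 x.2⟩) (w x.1 x.2)
  have hRinj : Function.Injective (algebraMap D R) := IsLocalization.injective R hW
  have hF : ∀ (x : ↥(integralClosure R (AlgebraicClosure (FractionRing R)))) (v : D)
      (hv : IsIntegral A (gD v * ι x.1)),
      algebraMap D R v * F x = algebraMap D R (h ⟨gD v * ι x.1, hv⟩) := by
    intro x v hv
    have e1 : algebraMap D R (w x.1 x.2) * F x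
        = algebraMap D R (h ⟨gD (w x.1 x.2) * ι x.1, hw x.1 x.2⟩) := by
      rw [mul_comm]
      exact IsLocalization.mk'_spec R _ _
    have e2 : (v * h ⟨gD (w x.1 x.2) * ι x.1, hw x.1 x.2⟩) =
        ((w x.1 x.2 : D) * h ⟨gD v * ι x.1, hv⟩) := by
      rw [← hlin, ← hlin]
      congr 1
      apply Subtype.ext
      change algebraMap D A v • (gD (w x.1 x.2) * ι x.1) =
        algebraMap D A (w x.1 x.2) • (gD v * ι x.1)
      rw [Algebra.smul_def, Algebra.smul_def]
      change gD v * _ = gD _ * _
      ring
    have hne : algebraMap D R (w x.1 x.2) ≠ 0 := by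
      intro h0
      exact nonZeroDivisors.ne_zero (hW (w x.1 x.2).2) (hRinj (by rw [h0, map_zero]))
    apply mul_left_cancel₀ hne
    rw [mul_left_comm, e1, ← map_mul, ← map_mul, e2]
  have hwne : ∀ u : W, algebraMap D R u ≠ 0 := by
    intro u h0
    exact nonZeroDivisors.ne_zero (hW u.2) (hRinj (by rw [h0, map_zero]))
  have hgDint : ∀ d : D, IsIntegral A (gD d) := fun d => isIntegral_algebraMap
  have hFadd : ∀ x y, F (x + y) = F x + F y := by
    intro x y
    have hx : IsIntegral A (gD (w x.1 x.2 * w y.1 y.2 : D) * ι x.1) := by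
      rw [map_mul]
      have := (hgDint (w y.1 y.2 : D)).mul (hw x.1 x.2)
      have e : gD (w x.1 x.2) * gD (w y.1 y.2) * ι x.1 = gD (w y.1 y.2) * (gD (w x.1 x.2) * ι x.1) := by
        ring
      rwa [e]
    have hy : IsIntegral A (gD (w x.1 x.2 * w y.1 y.2 : D) * ι y.1) := by
      rw [map_mul]
      have := (hgDint (w x.1 x.2 : D)).mul (hw y.1 y.2)
      have e : gD (w x.1 x.2) * gD (w y.1 y.2) * ι y.1 = gD (w x.1 x.2) * (gD (w y.1 y.2) * ι y.1) := by
        ring
      rwa [e]
    have hxy : IsIntegral A (gD (w x.1 x.2 * w y.1 y.2 : D) * ι (x + y).1) := by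
      have := hx.add hy
      have e : gD (w x.1 x.2 * w y.1 y.2 : D) * ι (x + y).1 =
          gD (w x.1 x.2 * w y.1 y.2 : D) * ι x.1 + gD (w x.1 x.2 * w y.1 y.2 : D) * ι y.1 := by
        have e' : (x + y).1 = x.1 + y.1 := rfl
        rw [e', map_add, mul_add]
      rwa [e]
    have hne : algebraMap D R (w x.1 x.2 * w y.1 y.2 : D) ≠ 0 := by
      rw [map_mul]
      exact mul_ne_zero (hwne _) (hwne _)
    apply mul_left_cancel₀ hne
    rw [mul_add, hF _ _ hxy, hF _ _ hx, hF _ _ hy, ← map_add, ← map_add]
    congr 2
    apply Subtype.ext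
    change _ * ι (x.1 + y.1) = _ * _ + _ * _
    rw [map_add]
    ring
  have hFsmul : ∀ (r : R) x, F (r • x) = r * F x := by
    intro r x
    obtain ⟨d, v, rfl⟩ := IsLocalization.exists_mk'_eq W r
    have hιr : ι ((IsLocalization.mk' R d v • x : ↥(integralClosure R (AlgebraicClosure (FractionRing R)))).1)
        = gR (IsLocalization.mk' R d v) * ι x.1 := by
      change ι (IsLocalization.mk' R d v • x.1) = _
      rw [Algebra.smul_def, map_mul, hι]
    have hvr : gD v * gR (IsLocalization.mk' R d v) = gD d := by
      rw [← hgRD, ← hgRD, ← map_mul, mul_comm, IsLocalization.mk'_spec]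
    have e1 : gD (v * w x.1 x.2 : D) * ι ((IsLocalization.mk' R d v • x :
        ↥(integralClosure R (AlgebraicClosure (FractionRing R)))).1)
        = gD d * (gD (w x.1 x.2) * ι x.1) := by
      rw [hιr, map_mul, ← hvr]
      ring
    have hi : IsIntegral A (gD (v * w x.1 x.2 : D) * ι ((IsLocalization.mk' R d v • x :
        ↥(integralClosure R (AlgebraicClosure (FractionRing R)))).1)) := by
      rw [e1]
      exact (hgDint d).mul (hw x.1 x.2)
    have hne : algebraMap D R (v * w x.1 x.2 : D) ≠ 0 := by
      rw [map_mul]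
      exact mul_ne_zero (hwne _) (hwne _)
    apply mul_left_cancel₀ hne
    rw [hF _ _ hi]
    have e2 : (⟨_, hi⟩ : ↥(integralClosure A (AlgebraicClosure (FractionRing A)))) =
        algebraMap D A d • ⟨gD (w x.1 x.2) * ι x.1, hw x.1 x.2⟩ := by
      apply Subtype.ext
      refine e1.trans ?_
      change _ = algebraMap D A d • (gD (w x.1 x.2) * ι x.1)
      exact (Algebra.smul_def (algebraMap D A d) (gD (w x.1 x.2) * ι x.1)).symm
    rw [e2, hlin, map_mul, ← hF x _ (hw x.1 x.2), map_mul]
    have e3 : algebraMap D R v * IsLocalization.mk' R d v = algebraMap D R d := by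
      rw [mul_comm, IsLocalization.mk'_spec]
    rw [← e3]
    ring
  refine ⟨{ toFun := F, map_add' := hFadd, map_smul' := hFsmul }, ?_⟩
  change F 1 = 1
  have hi : IsIntegral A (gD 1 * ι (1 : ↥(integralClosure R (AlgebraicClosure (FractionRing R)))).1) := by
    rw [map_one, one_mul]
    change IsIntegral A (ι 1)
    rw [map_one]
    exact isIntegral_one
  have := hF 1 1 hi
  rw [map_one, one_mul] at this
  rw [this]
  have e : (⟨_, hi⟩ : ↥(integralClosure A (AlgebraicClosure (FractionRing A)))) = 1 := by
    apply Subtype.ext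
    change gD 1 * ι 1 = 1
    rw [map_one, map_one, one_mul]
  rw [e, h1, map_one]

end transfer

end Pool.Agent.H338R3
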