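import Mathlib

/-!
Labellings of the Cayley tree of the free group of rank two in which every vertex chooses a parent
among its four neighbours and every vertex has at least two children, and which are recurrent in
every direction.
-/

set_option autoImplicit false

namespace Pool.Agent.H338R3

open FreeGroup

/-- The free group of rank two. -/
abbrev F2 : Type := FreeGroup Bool

/-- The four signed letters. -/
abbrev Sg : Type := Bool × Bool

/-- The inverse signed letter. -/
def iv (s : Sg) : Sg := (s.1, !s.2)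

/-- The group element of a signed letter. -/
def el (s : Sg) : F2 := FreeGroup.mk [s]

lemma el_iv (s : Sg) : el (iv s) = (el s)⁻¹ := by
  simp [el, iv, FreeGroup.inv_mk, FreeGroup.invRev]

lemma iv_iv (s : Sg) : iv (iv s) = s := by
  simp [iv]

/-- The direction that shortens a reduced word. -/
def down (g : F2) : Sg :=
  match g.toWord with
  | [] => (true, true)
  | hd :: _ => iv hd

lemma toWord_el_mul (s : Sg) (g : F2) :
    (el s * g).toWord = FreeGroup.reduce (s :: g.toWord) := by
  rw [el, FreeGroup.toWord_mul, FreeGroup.toWord_mk, FreeGroup.reduce_singleton]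
  rfl

lemma up_word (s : Sg) (g : F2) (h : g = 1 ∨ s ≠ down g) :
    (el s * g).toWord = s :: g.toWord := by
  rw [toWord_el_mul, FreeGroup.reduce.cons, FreeGroup.reduce_toWord]
  rcases hg : g.toWord with _ | ⟨hd, tl⟩
  · rfl
  · have hne : g ≠ 1 := by
      rintro rfl
      simp at hg
    have h2 : s ≠ iv hd := by
      have := h.resolve_left hne
      simpa [down, hg] using this
    have h3 : ¬ (s.1 = hd.1 ∧ s.2 = !hd.2) := by
      rintro ⟨h4, h5⟩
      exact h2 (Prod.ext h4 h5)
    simp [h3]

lemma norm_up (s : Sg) (g : F2) (h : g = 1 ∨ s ≠ down g) :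
    (el s * g).norm = g.norm + 1 := by
  simp [FreeGroup.norm, up_word s g h]

lemma down_up (s : Sg) (g : F2) (h : g = 1 ∨ s ≠ down g) :
    down (el s * g) = iv s := by
  simp [down, up_word s g h]

lemma norm_le_succ (s : Sg) (g : F2) : (el s * g).norm ≤ g.norm + 1 := by
  have h1 : (el s).norm ≤ 1 := by
    exact FreeGroup.norm_mk_le (L₁ := [s])
  have := FreeGroup.norm_mul_le (el s) g
  omega

lemma two_choices (a b : Sg) : ∃ s t : Sg, s ≠ t ∧ s ≠ a ∧ s ≠ b ∧ t ≠ a ∧ t ≠ b := by
  revert a b
  decide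

/-- Every vertex has at least two children. -/
def Good (y : F2 → Sg) : Prop :=
  ∀ g, ∃ s t : Sg, s ≠ t ∧ y (el s * g) = iv s ∧ y (el t * g) = iv t

lemma good_down : Good down := by
  intro g
  obtain ⟨s, t, hst, hs, _, ht, _⟩ := two_choices (down g) (down g)
  exact ⟨s, t, hst, down_up s g (Or.inr hs), down_up t g (Or.inr ht)⟩

/-- Gluing two copies of a ball pattern. -/
def glue (y : F2 → Sg) (R : ℕ) (h : F2) : F2 → Sg := fun g =>
  if g.norm ≤ R then y g
  else if (g * h⁻¹).norm ≤ R then y (g * h⁻¹)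
  else down g

lemma far (R : ℕ) (h g : F2) (hh : 2 * R < h.norm) (h1 : g.norm ≤ R) :
    R < (g * h⁻¹).norm := by
  by_contra hc
  push Not at hc
  have h2 : h = (g * h⁻¹)⁻¹ * g := by group
  have h3 := FreeGroup.norm_mul_le (g * h⁻¹)⁻¹ g
  rw [← h2, FreeGroup.norm_inv_eq] at h3
  omega

lemma good_glue (y : F2 → Sg) (hy : Good y) (R : ℕ) (h : F2) (hh : 2 * R < h.norm) :
    Good (glue y R h) := by
  intro g
  by_cases h1 : g.norm < R
  · obtain ⟨s, t, hst, hs, ht⟩ := hy g
    refine ⟨s, t, hst, ?_, ?_⟩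
    · rw [glue, if_pos (by have := norm_le_succ s g; omega), hs]
    · rw [glue, if_pos (by have := norm_le_succ t g; omega), ht]
  · by_cases h2 : (g * h⁻¹).norm < R
    · obtain ⟨s, t, hst, hs, ht⟩ := hy (g * h⁻¹)
      have key : ∀ u : Sg, glue y R h (el u * g) = y (el u * (g * h⁻¹)) := by
        intro u
        have h3 : (el u * g * h⁻¹).norm ≤ R := by
          rw [mul_assoc]
          have := norm_le_succ u (g * h⁻¹)
          omega
        have h4 : ¬ (el u * g).norm ≤ R := fun h5 => by
          have := far R h (el u * g) hh h5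
          omega
        rw [glue, if_neg h4, if_pos h3, mul_assoc]
      exact ⟨s, t, hst, by rw [key, hs], by rw [key, ht]⟩
    · obtain ⟨s, t, hst, hs1, hs2, ht1, ht2⟩ := two_choices (down g) (down (g * h⁻¹))
      have key : ∀ u : Sg, u ≠ down g → u ≠ down (g * h⁻¹) →
          glue y R h (el u * g) = iv u := by
        intro u hu1 hu2
        have h3 := norm_up u g (Or.inr hu1)
        have h4 := norm_up u (g * h⁻¹) (Or.inr hu2)
        rw [glue, if_neg (by omega), if_neg (by rw [mul_assoc]; omega),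
          down_up u g (Or.inr hu1)]
      exact ⟨s, t, hst, key s hs1 hs2, key t ht1 ht2⟩

lemma finite_ball (M : ℕ) : {g : F2 | g.norm ≤ M}.Finite := by
  have h1 : {l : List Sg | l.length ≤ M}.Finite := List.finite_length_le Sg M
  exact Set.Finite.subset (h1.preimage (FreeGroup.toWord_injective.injOn)) (fun g hg => hg)

lemma unbounded (γ : F2) (hγ : γ ≠ 1) (M N : ℕ) : ∃ n, N ≤ n ∧ M < (γ ^ n).norm := by
  by_contra hc
  push Not at hc
  have h1 : ¬ IsOfFinOrder γ := by
    rw [isOfFinOrder_iff_eq_one]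
    exact hγ
  have h2 : Function.Injective (fun n : ℕ => γ ^ n) := injective_pow_iff_not_isOfFinOrder.mpr h1
  have h3 : (Set.Ici N).Infinite := Set.Ici_infinite N
  have h4 : ((fun n : ℕ => γ ^ n) '' Set.Ici N).Infinite := h3.image h2.injOn
  apply h4
  apply (finite_ball M).subset
  rintro _ ⟨n, hn, rfl⟩
  exact hc n hn

/-- A configuration recurs under right translation by powers of `γ` on the ball of radius `R`,
at times at least `N`. -/
def Rec (y : F2 → Sg) (γ : F2) (R N : ℕ) : Prop :=
  ∃ n, N ≤ n ∧ ∀ g : F2, g.norm ≤ R → y (g * γ ^ n) = y g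

/-- The space of good labellings. -/
def Y : Set (F2 → Sg) := {y | Good y}

lemma isOpen_eval (g : F2) (s : Sg) : IsOpen {y : F2 → Sg | y g = s} :=
  IsOpen.preimage (f := fun y : F2 → Sg => y g) (continuous_apply g)
    (isOpen_discrete ({s} : Set Sg))

lemma isClosed_eval (g : F2) (s : Sg) : IsClosed {y : F2 → Sg | y g = s} :=
  IsClosed.preimage (f := fun y : F2 → Sg => y g) (continuous_apply g)
    (isClosed_discrete ({s} : Set Sg))

lemma isClosed_Y : IsClosed Y := by
  have : Y = ⋂ g : F2, ⋃ p : Sg × Sg, ({y : F2 → Sg | p.1 ≠ p.2} ∩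
      ({y : F2 → Sg | y (el p.1 * g) = iv p.1} ∩ {y : F2 → Sg | y (el p.2 * g) = iv p.2})) := by
    ext y
    simp [Y, Good]
  rw [this]
  refine isClosed_iInter fun g => isClosed_iUnion_of_finite fun p => ?_
  by_cases hp : p.1 ≠ p.2
  · simp only [hp, ne_eq, not_false_eq_true]
    exact isClosed_univ.inter ((isClosed_eval _ _).inter (isClosed_eval _ _))
  · simp only [hp]
    exact isClosed_empty.inter ((isClosed_eval _ _).inter (isClosed_eval _ _))

instance : CompactSpace Y := isCompact_iff_compactSpace.mp isClosed_Y.isCompact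

instance : Nonempty Y := ⟨⟨down, good_down⟩⟩

instance : Countable F2 := by
  unfold F2
  infer_instance

/-- There is a good labelling that is recurrent in every direction. -/
theorem exists_recurrent : ∃ y : F2 → Sg, Good y ∧ ∀ (γ : F2) (R N : ℕ), Rec y γ R N := by
  let U : F2 × ℕ × ℕ → Set Y := fun p => {y | Rec y.1 p.1 p.2.1 p.2.2}
  have hopen : ∀ p, IsOpen (U p) := by
    rintro ⟨γ, R, N⟩
    have : U (γ, R, N) = ⋃ n ∈ Set.Ici N, ⋂ g ∈ {g : F2 | g.norm ≤ R},
        {y : Y | y.1 (g * γ ^ n) = y.1 g} := by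
      ext y
      simp [U, Rec]
    rw [this]
    refine isOpen_biUnion fun n _ => (finite_ball R).isOpen_biInter fun g _ => ?_
    exact IsOpen.preimage (f := fun y : Y => (y.1 (g * γ ^ n), y.1 g))
      (((continuous_apply (g * γ ^ n)).comp continuous_subtype_val).prodMk
        ((continuous_apply g).comp continuous_subtype_val))
      (isOpen_discrete ({p : Sg × Sg | p.1 = p.2}))
  have hdense : ∀ p, Dense (U p) := by
    rintro ⟨γ, R, N⟩
    intro y
    rw [mem_closure_iff]
    intro V hV hyV
    by_cases hγ : γ = 1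
    · exact ⟨y, hyV, N, le_rfl, fun g _ => by rw [hγ]; simp⟩
    obtain ⟨V', hV', rfl⟩ := isOpen_induced_iff.mp hV
    obtain ⟨I, u, hu, hsub⟩ := isOpen_pi_iff.mp hV' y.1 hyV
    obtain ⟨M, hM⟩ : ∃ M : ℕ, ∀ i ∈ I, i.norm ≤ M := ⟨I.sup FreeGroup.norm, fun i hi =>
      Finset.le_sup (f := FreeGroup.norm) hi⟩
    set R' := max R M
    obtain ⟨n, hn, hlt⟩ := unbounded γ hγ (2 * R') N
    refine ⟨⟨glue y.1 R' (γ ^ n), good_glue y.1 y.2 R' _ hlt⟩, ?_, n, hn, ?_⟩
    · apply hsub
      intro i hi
      have h1 : i.norm ≤ R' := (hM i hi).trans (le_max_right _ _)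
      change glue y.1 R' (γ ^ n) i ∈ u i
      rw [glue, if_pos h1]
      exact (hu i hi).2
    · intro g hg
      have h1 : g.norm ≤ R' := (show g.norm ≤ R from hg).trans (le_max_left _ _)
      change glue y.1 R' (γ ^ n) (g * γ ^ n) = glue y.1 R' (γ ^ n) g
      have h2 : ¬ (g * γ ^ n).norm ≤ R' := by
        intro h3
        have := far R' (γ ^ n) _ hlt h3
        rw [mul_inv_cancel_right] at this
        omega
      rw [glue, if_neg h2, mul_inv_cancel_right, if_pos h1, glue, if_pos h1]
  obtain ⟨y, hy⟩ := (dense_iInter_of_isOpen hopen hdense).nonempty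
  rw [Set.mem_iInter] at hy
  exact ⟨y.1, y.2, fun γ R N => hy (γ, R, N)⟩

end Pool.Agent.H338R3
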